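import Pool.Agent.Q287.SR.Inv

/-! Burnside bound and the sum over permutations. -/

open Finset BigOperators
open scoped Classical

namespace Pool.Agent.Q287.SR

theorem classes_le {m : ℕ} (T : SimpleGraph (Fin m) → Prop)
    (hT : ∀ (σ : Equiv.Perm (Fin m)) K, T K → T (σ • K)) :
    m.factorial * (((univ : Finset (SimpleGraph (Fin m))).filter T).image toC).card ≤
      ∑ σ : Equiv.Perm (Fin m),
        ((univ : Finset (SimpleGraph (Fin m))).filter (fun K => T K ∧ σ • K = K)).card := by
  set 𝒯 := (univ : Finset (SimpleGraph (Fin m))).filter T with h𝒯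
  have h1 : ∑ σ : Equiv.Perm (Fin m),
        ((univ : Finset (SimpleGraph (Fin m))).filter (fun K => T K ∧ σ • K = K)).card
      = ∑ K ∈ 𝒯, ((univ : Finset (Equiv.Perm (Fin m))).filter (fun σ => σ • K = K)).card := by
    have e1 : ∀ σ : Equiv.Perm (Fin m),
        ((univ : Finset (SimpleGraph (Fin m))).filter (fun K => T K ∧ σ • K = K)).card
        = ∑ K ∈ 𝒯, if σ • K = K then 1 else 0 := by
      intro σ
      rw [← Finset.filter_filter, Finset.card_filter]
    have e2 : ∀ K ∈ 𝒯, ((univ : Finset (Equiv.Perm (Fin m))).filter (fun σ => σ • K = K)).card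
        = ∑ σ : Equiv.Perm (Fin m), if σ • K = K then 1 else 0 := by
      intro K _
      rw [Finset.card_filter]
    rw [Finset.sum_congr rfl (fun σ _ => e1 σ), Finset.sum_congr rfl e2, Finset.sum_comm]
  rw [h1, ← Finset.sum_fiberwise_of_maps_to (s := 𝒯) (t := 𝒯.image toC) (g := toC)
    (fun K hK => Finset.mem_image_of_mem _ hK), mul_comm, ← smul_eq_mul,
    ← Finset.sum_const]
  refine Finset.sum_le_sum (fun c hc => ?_)
  obtain ⟨K0, hK0, hK0c⟩ := Finset.mem_image.1 hc
  have hTK0 : T K0 := by
    rw [h𝒯, Finset.mem_filter] at hK0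
    exact hK0.2
  -- for each K in the class, #stab K = #{ρ : ρ • K0 = K}
  have h2 : ∀ K ∈ 𝒯.filter (fun K => toC K = c),
      ((univ : Finset (Equiv.Perm (Fin m))).filter (fun σ => σ • K = K)).card
      = ((univ : Finset (Equiv.Perm (Fin m))).filter (fun ρ => ρ • K0 = K)).card := by
    intro K hK
    rw [Finset.mem_filter] at hK
    obtain ⟨g, hg⟩ := toC_eq.1 (hK.2.trans hK0c.symm)
    refine Finset.card_bij (fun σ _ => σ * g) ?_ ?_ ?_
    · intro σ hσ
      rw [Finset.mem_filter] at hσ ⊢
      refine ⟨Finset.mem_univ _, ?_⟩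
      rw [mul_smul, hg]
      exact hσ.2
    · intro σ _ σ' _ h
      exact mul_right_cancel h
    · intro ρ hρ
      rw [Finset.mem_filter] at hρ
      refine ⟨ρ * g⁻¹, ?_, by group⟩
      rw [Finset.mem_filter]
      refine ⟨Finset.mem_univ _, ?_⟩
      conv_lhs => rw [← hg, mul_smul, inv_smul_smul]
      exact hρ.2
  rw [Finset.sum_congr rfl h2]
  have h3 : (univ : Finset (Equiv.Perm (Fin m))).card
      = ∑ K ∈ 𝒯.filter (fun K => toC K = c),
        ((univ : Finset (Equiv.Perm (Fin m))).filter (fun ρ => ρ • K0 = K)).card := by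
    apply Finset.card_eq_sum_card_fiberwise
    intro ρ _
    simp only [Finset.coe_filter, Set.mem_ofPred_eq]
    refine ⟨?_, ?_⟩
    · rw [h𝒯, Finset.mem_filter]
      exact ⟨Finset.mem_univ _, hT ρ K0 hTK0⟩
    · rw [toC_smul, hK0c]
  rw [← h3, Finset.card_univ, Fintype.card_perm, Fintype.card_fin]

theorem sum_perm_le {m : ℕ} (hm : 1 ≤ m) :
    ∑ σ : Equiv.Perm (Fin m), ((1:ℝ) / m) ^ σ.support.card ≤ 2 ^ m := by
  have hm0 : (0:ℝ) < m := by exact_mod_cast hm
  have h1 : ∀ σ : Equiv.Perm (Fin m), ((1:ℝ) / m) ^ σ.support.card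
      = ∏ i, (if σ i = i then (1:ℝ) else 1 / m) := by
    intro σ
    rw [Finset.prod_ite]
    simp only [Finset.prod_const_one, one_mul, Finset.prod_const]
    congr 1
  have h2 : ∑ σ : Equiv.Perm (Fin m), ∏ i, (if σ i = i then (1:ℝ) else 1 / m)
      ≤ ∑ f : Fin m → Fin m, ∏ i, (if f i = i then (1:ℝ) else 1 / m) := by
    have : ∑ σ : Equiv.Perm (Fin m), ∏ i, (if σ i = i then (1:ℝ) else 1 / m)
        = ∑ f ∈ Finset.image (fun σ : Equiv.Perm (Fin m) => (⇑σ : Fin m → Fin m)) univ,
          ∏ i, (if f i = i then (1:ℝ) else 1 / m) := by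
      rw [Finset.sum_image]
      intro σ _ σ' _ h
      exact Equiv.coe_fn_injective h
    rw [this]
    apply Finset.sum_le_sum_of_subset_of_nonneg (Finset.subset_univ _)
    intro f _ _
    apply Finset.prod_nonneg
    intro i _
    split_ifs <;> positivity
  have h3 : ∑ f : Fin m → Fin m, ∏ i, (if f i = i then (1:ℝ) else 1 / m)
      = ∏ i : Fin m, ∑ j : Fin m, (if j = i then (1:ℝ) else 1 / m) := by
    have := Finset.prod_univ_sum (fun (_ : Fin m) => (univ : Finset (Fin m)))
      (fun (i : Fin m) (j : Fin m) => (if j = i then (1:ℝ) else 1 / m))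
    rw [Fintype.piFinset_univ] at this
    rw [← this]
  rw [Finset.sum_congr rfl (fun σ _ => h1 σ)]
  refine h2.trans ?_
  rw [h3]
  calc ∏ i : Fin m, ∑ j : Fin m, (if j = i then (1:ℝ) else 1 / m)
      ≤ ∏ _i : Fin m, (2:ℝ) := by
        apply Finset.prod_le_prod
        · intro i _
          apply Finset.sum_nonneg
          intro j _
          split_ifs <;> positivity
        · intro i _
          calc ∑ j : Fin m, (if j = i then (1:ℝ) else 1 / m)
              ≤ ∑ j : Fin m, ((if j = i then (1:ℝ) else 0) + 1 / m) := by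
                refine Finset.sum_le_sum (fun j _ => ?_)
                split_ifs
                · have : (0:ℝ) ≤ 1 / m := by positivity
                  linarith
                · linarith
            _ = 2 := by
                rw [Finset.sum_add_distrib]
                simp only [Finset.sum_ite_eq', Finset.mem_univ, if_true, Finset.sum_const,
                  Finset.card_univ, Fintype.card_fin, nsmul_eq_mul]
                field_simp
                norm_num
    _ = 2 ^ m := by simp

end Pool.Agent.Q287.SR
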