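import Pool.Agent.Q287.SR.Map

/-! Case A: `G[S]` has an isolated vertex and some outside vertex has no neighbour in `S`. -/

open Finset BigOperators
open scoped Classical

namespace Pool.Agent.Q287.SR

theorem cl_eq_of_equiv {n m : ℕ} (G : SimpleGraph (Fin n)) {S S' : Finset (Fin n)}
    (hS : S.card = m) (f : {x // x ∈ S} ≃ {x // x ∈ S'})
    (hf : ∀ a b : {x // x ∈ S}, G.Adj (f a) (f b) ↔ G.Adj a b) : cl m G S' = cl m G S := by
  have π := S.equivFinOfCardEq hS
  rw [cl_eq G S π, cl_eq G S' (f.symm.trans π)]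
  congr 1
  ext u v
  show G.Adj _ _ ↔ G.Adj _ _
  exact hf (π.symm u) (π.symm v)

/-- Edges from `u` to the other vertices of `S`. -/
noncomputable def D1 {n : ℕ} (S : Finset (Fin n)) (u : Fin n) : Finset (Sym2 (Fin n)) :=
  (S.erase u).image (fun v => s(u, v))

/-- Edges from `w` to the vertices of `S`. -/
noncomputable def D2 {n : ℕ} (S : Finset (Fin n)) (w : Fin n) : Finset (Sym2 (Fin n)) :=
  S.image (fun v => s(w, v))

theorem sym_inj {n : ℕ} (u : Fin n) : Function.Injective (fun v : Fin n => s(u, v)) := by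
  intro a b h
  simp only [Sym2.eq, Sym2.rel_iff', Prod.mk.injEq, true_and, Prod.swap_prod_mk] at h
  rcases h with h | ⟨h1, h2⟩
  · exact h
  · rw [h2, ← h1]

theorem D1_card {n : ℕ} {S : Finset (Fin n)} {u : Fin n} (hu : u ∈ S) :
    (D1 S u).card = S.card - 1 := by
  unfold D1
  rw [Finset.card_image_of_injective _ (sym_inj u), Finset.card_erase_of_mem hu]

theorem D2_card {n : ℕ} {S : Finset (Fin n)} {w : Fin n} :
    (D2 S w).card = S.card := by
  unfold D2
  rw [Finset.card_image_of_injective _ (sym_inj w)]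

theorem D1_sub {n : ℕ} (S : Finset (Fin n)) (u : Fin n) : D1 S u ⊆ pairs n := by
  intro e he
  unfold D1 at he
  obtain ⟨v, hv, rfl⟩ := Finset.mem_image.1 he
  rw [Finset.mem_erase] at hv
  simp only [pairs, Finset.mem_filter, Finset.mem_univ, true_and, Sym2.mk_isDiag_iff]
  exact fun h => hv.1 h.symm

theorem D2_sub {n : ℕ} (S : Finset (Fin n)) {w : Fin n} (hw : w ∉ S) : D2 S w ⊆ pairs n := by
  intro e he
  unfold D2 at he
  obtain ⟨v, hv, rfl⟩ := Finset.mem_image.1 he
  simp only [pairs, Finset.mem_filter, Finset.mem_univ, true_and, Sym2.mk_isDiag_iff]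
  intro h
  apply hw
  rw [h]
  exact hv

theorem D1_inter {n : ℕ} {S : Finset (Fin n)} {u u' : Fin n} (h : u ≠ u') :
    (D1 S u ∩ D1 S u').card ≤ 1 := by
  apply Finset.card_le_one.2
  have key : ∀ e ∈ D1 S u ∩ D1 S u', e = s(u, u') := by
    intro e he
    rw [Finset.mem_inter] at he
    obtain ⟨v, hv, rfl⟩ := Finset.mem_image.1 he.1
    obtain ⟨v', hv', h2⟩ := Finset.mem_image.1 he.2
    simp only [Sym2.eq, Sym2.rel_iff', Prod.mk.injEq, Prod.swap_prod_mk] at h2
    rcases h2 with ⟨h3, h4⟩ | ⟨h3, h4⟩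
    · exact absurd h3.symm h
    · rw [h3]
  intro a ha b hb
  rw [key a ha, key b hb]

theorem D2_inter {n : ℕ} {S : Finset (Fin n)} {w w' : Fin n} (hw : w ∉ S) (h : w ≠ w') :
    Disjoint (D2 S w) (D2 S w') := by
  rw [Finset.disjoint_left]
  intro e he he'
  obtain ⟨v, hv, rfl⟩ := Finset.mem_image.1 he
  obtain ⟨v', hv', h2⟩ := Finset.mem_image.1 he'
  simp only [Sym2.eq, Sym2.rel_iff', Prod.mk.injEq, Prod.swap_prod_mk] at h2
  rcases h2 with ⟨h3, h4⟩ | ⟨h3, h4⟩
  · exact h h3.symm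
  · apply hw
    rw [← h4]
    exact hv'

theorem D12_disj {n : ℕ} {S : Finset (Fin n)} {u w : Fin n} (hu : u ∈ S) (hw : w ∉ S) :
    Disjoint (D1 S u) (D2 S w) := by
  rw [Finset.disjoint_left]
  intro e he he'
  obtain ⟨v, hv, rfl⟩ := Finset.mem_image.1 he
  obtain ⟨v', hv', h2⟩ := Finset.mem_image.1 he'
  have hv := Finset.mem_of_mem_erase hv
  simp only [Sym2.eq, Sym2.rel_iff', Prod.mk.injEq, Prod.swap_prod_mk] at h2
  rcases h2 with ⟨h3, h4⟩ | ⟨h3, h4⟩
  · exact hw (h3 ▸ hu)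
  · exact hw (h3 ▸ hv)

theorem absent_mul {n : ℕ} (D D' : Finset (Sym2 (Fin n))) (G : SimpleGraph (Fin n)) :
    absent D G * absent D' G = absent (D ∪ D') G := by
  unfold absent
  by_cases h2 : ∀ e ∈ D ∪ D', e ∉ G.edgeSet
  · rw [if_pos h2, if_pos (fun e he => h2 e (Finset.mem_union_left _ he)),
      if_pos (fun e he => h2 e (Finset.mem_union_right _ he))]
    norm_num
  · rw [if_neg h2]
    by_cases h : ∀ e ∈ D, e ∉ G.edgeSet
    · have h' : ¬ ∀ e ∈ D', e ∉ G.edgeSet := by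
        intro h'
        apply h2
        intro e he
        rcases Finset.mem_union.1 he with h1 | h1
        · exact h e h1
        · exact h' e h1
      rw [if_neg h', mul_zero]
    · rw [if_neg h, zero_mul]

theorem twin_of_absent {n m : ℕ} {G : SimpleGraph (Fin n)} {S : Finset (Fin n)} (hS : S.card = m)
    {u w : Fin n} (hu : u ∈ S) (hw : w ∉ S) (h1 : ∀ e ∈ D1 S u, e ∉ G.edgeSet)
    (h2 : ∀ e ∈ D2 S w, e ∉ G.edgeSet) : Twin m G S := by
  refine ⟨S.map (Equiv.swap u w).toEmbedding, ?_, ?_, ?_⟩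
  · rw [Finset.mem_powersetCard]
    exact ⟨Finset.subset_univ _, by rw [Finset.card_map, hS]⟩
  · intro h
    apply hw
    rw [← h, Finset.mem_map]
    exact ⟨u, hu, by simp⟩
  · have hmem : ∀ a, a ∈ S ↔ (Equiv.swap u w) a ∈ S.map (Equiv.swap u w).toEmbedding := by
      intro a
      constructor
      · intro ha
        exact Finset.mem_map.2 ⟨a, ha, rfl⟩
      · intro ha
        obtain ⟨b, hb, hb2⟩ := Finset.mem_map.1 ha
        have : b = a := (Equiv.swap u w).injective hb2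
        rwa [← this]
    apply cl_eq_of_equiv G hS ((Equiv.swap u w).subtypeEquiv hmem)
    have n1 : ∀ b, b ∈ S → ¬ G.Adj u b := by
      intro b hb hadj
      have hne : b ≠ u := hadj.ne'
      exact h1 s(u, b) (Finset.mem_image.2 ⟨b, Finset.mem_erase.2 ⟨hne, hb⟩, rfl⟩) hadj
    have n2 : ∀ b, b ∈ S → ¬ G.Adj w b := by
      intro b hb hadj
      exact h2 s(w, b) (Finset.mem_image.2 ⟨b, hb, rfl⟩) hadj
    rintro ⟨a, ha⟩ ⟨b, hb⟩
    show G.Adj ((Equiv.swap u w) a) ((Equiv.swap u w) b) ↔ G.Adj a b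
    have haw : a ≠ w := fun h => hw (h ▸ ha)
    have hbw : b ≠ w := fun h => hw (h ▸ hb)
    by_cases hau : a = u
    · subst hau
      rw [Equiv.swap_apply_left]
      by_cases hbu : b = a
      · subst hbu
        rw [Equiv.swap_apply_left]
        simp
      · rw [Equiv.swap_apply_of_ne_of_ne hbu hbw]
        exact ⟨fun h => absurd h (n2 b hb), fun h => absurd h (n1 b hb)⟩
    · rw [Equiv.swap_apply_of_ne_of_ne hau haw]
      by_cases hbu : b = u
      · subst hbu
        rw [Equiv.swap_apply_left]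
        exact ⟨fun h => absurd h.symm (n2 a ha), fun h => absurd h.symm (n1 a ha)⟩
      · rw [Equiv.swap_apply_of_ne_of_ne hbu hbw]

/-- number of vertices isolated in `G[S]` -/
noncomputable def X1 {n : ℕ} (S : Finset (Fin n)) (G : SimpleGraph (Fin n)) : ℝ :=
  ∑ u ∈ S, absent (D1 S u) G

/-- number of outside vertices without neighbours in `S` -/
noncomputable def X2 {n : ℕ} (S : Finset (Fin n)) (G : SimpleGraph (Fin n)) : ℝ :=
  ∑ w ∈ Sᶜ, absent (D2 S w) G

theorem twin_of_X {n m : ℕ} {G : SimpleGraph (Fin n)} {S : Finset (Fin n)} (hS : S.card = m)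
    (h : X1 S G * X2 S G ≠ 0) : Twin m G S := by
  have h1 : X1 S G ≠ 0 := left_ne_zero_of_mul h
  have h2 : X2 S G ≠ 0 := right_ne_zero_of_mul h
  obtain ⟨u, hu, hu2⟩ := Finset.exists_ne_zero_of_sum_ne_zero h1
  obtain ⟨w, hw, hw2⟩ := Finset.exists_ne_zero_of_sum_ne_zero h2
  unfold absent at hu2 hw2
  refine twin_of_absent hS hu (Finset.mem_compl.1 hw) ?_ ?_
  · by_contra hc
    exact hu2 (if_neg hc)
  · by_contra hc
    exact hw2 (if_neg hc)

theorem Ex_X {n m : ℕ} {p : ℝ} {S : Finset (Fin n)} (hS : S.card = m) :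
    Ex n p (fun G => X1 S G * X2 S G)
      = (m * (1 - p) ^ (m - 1)) * (((n - m : ℕ) : ℝ) * (1 - p) ^ m) := by
  have h1 : ∀ G, X1 S G * X2 S G = ∑ u ∈ S, ∑ w ∈ Sᶜ, absent (D1 S u ∪ D2 S w) G := by
    intro G
    unfold X1 X2
    rw [Finset.sum_mul_sum]
    exact Finset.sum_congr rfl (fun u _ => Finset.sum_congr rfl (fun w _ => absent_mul _ _ _))
  have h2 : Ex n p (fun G => X1 S G * X2 S G)
      = ∑ u ∈ S, ∑ w ∈ Sᶜ, (1 - p) ^ (m - 1) * (1 - p) ^ m := by
    have : (fun G => X1 S G * X2 S G) = fun G => ∑ u ∈ S, ∑ w ∈ Sᶜ, absent (D1 S u ∪ D2 S w) G :=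
      funext h1
    rw [this, Ex_sum]
    refine Finset.sum_congr rfl (fun u hu => ?_)
    rw [Ex_sum]
    refine Finset.sum_congr rfl (fun w hw => ?_)
    have hw' := Finset.mem_compl.1 hw
    rw [Ex_absent p (Finset.union_subset (D1_sub S u) (D2_sub S hw')),
      Finset.card_union_of_disjoint (D12_disj hu hw'), D1_card hu, D2_card, hS, pow_add]
  rw [h2]
  simp only [Finset.sum_const, nsmul_eq_mul, Finset.card_compl, Fintype.card_fin, hS]
  ring

theorem Ex_X_sq {n m : ℕ} {p : ℝ} (h0 : 0 ≤ p) (h1 : p ≤ 1 / 2) {S : Finset (Fin n)}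
    (hS : S.card = m) :
    Ex n p (fun G => (X1 S G * X2 S G) ^ 2)
      ≤ ((m * (1 - p) ^ (m - 1)) + 2 * (m * (1 - p) ^ (m - 1)) ^ 2) *
        (((n - m : ℕ) : ℝ) * (1 - p) ^ m + (((n - m : ℕ) : ℝ) * (1 - p) ^ m) ^ 2) := by
  set q := 1 - p with hq
  have hq0 : 0 < q := by rw [hq]; linarith
  have hq1 : q ≤ 1 := by rw [hq]; linarith
  have hq2 : 1 / 2 ≤ q := by rw [hq]; linarith
  have e1 : ∀ G, (X1 S G * X2 S G) ^ 2 = ∑ u ∈ S, ∑ u' ∈ S, ∑ w ∈ Sᶜ, ∑ w' ∈ Sᶜ,
      absent ((D1 S u ∪ D1 S u') ∪ (D2 S w ∪ D2 S w')) G := by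
    intro G
    have : (X1 S G * X2 S G) ^ 2 = (X1 S G * X1 S G) * (X2 S G * X2 S G) := by ring
    rw [this]
    unfold X1 X2
    rw [Finset.sum_mul_sum, Finset.sum_mul_sum, Finset.sum_mul]
    refine Finset.sum_congr rfl (fun u _ => ?_)
    rw [Finset.sum_mul]
    refine Finset.sum_congr rfl (fun u' _ => ?_)
    rw [Finset.mul_sum]
    refine Finset.sum_congr rfl (fun w _ => ?_)
    rw [Finset.mul_sum]
    refine Finset.sum_congr rfl (fun w' _ => ?_)
    rw [absent_mul, absent_mul, absent_mul]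
  have e2 : Ex n p (fun G => (X1 S G * X2 S G) ^ 2) = ∑ u ∈ S, ∑ u' ∈ S, ∑ w ∈ Sᶜ, ∑ w' ∈ Sᶜ,
      q ^ (D1 S u ∪ D1 S u').card * q ^ (D2 S w ∪ D2 S w').card := by
    rw [show (fun G => (X1 S G * X2 S G) ^ 2) = _ from funext e1, Ex_sum]
    refine Finset.sum_congr rfl (fun u hu => ?_)
    rw [Ex_sum]
    refine Finset.sum_congr rfl (fun u' hu' => ?_)
    rw [Ex_sum]
    refine Finset.sum_congr rfl (fun w hw => ?_)
    rw [Ex_sum]
    refine Finset.sum_congr rfl (fun w' hw' => ?_)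
    have hw1 := Finset.mem_compl.1 hw
    have hw2 := Finset.mem_compl.1 hw'
    rw [Ex_absent p (Finset.union_subset (Finset.union_subset (D1_sub S u) (D1_sub S u'))
      (Finset.union_subset (D2_sub S hw1) (D2_sub S hw2))), Finset.card_union_of_disjoint, pow_add]
    rw [Finset.disjoint_union_left, Finset.disjoint_union_right, Finset.disjoint_union_right]
    exact ⟨⟨D12_disj hu hw1, D12_disj hu hw2⟩, ⟨D12_disj hu' hw1, D12_disj hu' hw2⟩⟩
  have e3 : (∑ u ∈ S, ∑ u' ∈ S, ∑ w ∈ Sᶜ, ∑ w' ∈ Sᶜ,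
      q ^ (D1 S u ∪ D1 S u').card * q ^ (D2 S w ∪ D2 S w').card)
      = (∑ u ∈ S, ∑ u' ∈ S, q ^ (D1 S u ∪ D1 S u').card) *
        (∑ w ∈ Sᶜ, ∑ w' ∈ Sᶜ, q ^ (D2 S w ∪ D2 S w').card) := by
    rw [Finset.sum_mul]
    refine Finset.sum_congr rfl (fun u _ => ?_)
    rw [Finset.sum_mul]
    refine Finset.sum_congr rfl (fun u' _ => ?_)
    rw [Finset.mul_sum]
    refine Finset.sum_congr rfl (fun w _ => ?_)
    rw [Finset.mul_sum]
  rw [e2, e3]
  apply mul_le_mul
  · calc ∑ u ∈ S, ∑ u' ∈ S, q ^ (D1 S u ∪ D1 S u').card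
        ≤ ∑ u ∈ S, ∑ u' ∈ S, ((if u = u' then q ^ (m - 1) else 0) + 2 * (q ^ (m - 1)) ^ 2) := by
          refine Finset.sum_le_sum (fun u hu => Finset.sum_le_sum (fun u' hu' => ?_))
          by_cases huu : u = u'
          · subst huu
            rw [if_pos rfl, Finset.union_self, D1_card hu, hS]
            have : 0 ≤ 2 * (q ^ (m - 1)) ^ 2 := by positivity
            linarith
          · rw [if_neg huu, zero_add]
            have hc := Finset.card_union_add_card_inter (D1 S u) (D1 S u')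
            have hi := D1_inter (S := S) huu
            rw [D1_card hu, D1_card hu', hS] at hc
            have h3 : 2 * (m - 1) ≤ (D1 S u ∪ D1 S u').card + 1 := by omega
            have h4 : q ^ ((D1 S u ∪ D1 S u').card + 1) ≤ q ^ (2 * (m - 1)) :=
              pow_le_pow_of_le_one hq0.le hq1 h3
            rw [pow_succ] at h4
            rw [← pow_mul, mul_comm (m - 1) 2]
            have h5 : q ^ (D1 S u ∪ D1 S u').card * (1 / 2) ≤
                q ^ (D1 S u ∪ D1 S u').card * q :=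
              mul_le_mul_of_nonneg_left hq2 (by positivity)
            linarith
      _ = _ := by
          simp only [Finset.sum_add_distrib, Finset.sum_ite_eq, Finset.sum_const, nsmul_eq_mul, hS]
          rw [Finset.sum_congr rfl (fun u hu => if_pos hu)]
          simp only [Finset.sum_const, nsmul_eq_mul, hS]
          ring
  · calc ∑ w ∈ Sᶜ, ∑ w' ∈ Sᶜ, q ^ (D2 S w ∪ D2 S w').card
        ≤ ∑ w ∈ Sᶜ, ∑ w' ∈ Sᶜ, ((if w = w' then q ^ m else 0) + (q ^ m) ^ 2) := by
          refine Finset.sum_le_sum (fun w hw => Finset.sum_le_sum (fun w' hw' => ?_))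
          by_cases hww : w = w'
          · subst hww
            rw [if_pos rfl, Finset.union_self, D2_card, hS]
            have : 0 ≤ (q ^ m) ^ 2 := by positivity
            linarith
          · rw [if_neg hww, zero_add,
              Finset.card_union_of_disjoint (D2_inter (Finset.mem_compl.1 hw) hww),
              D2_card, D2_card, hS, pow_add]
            apply le_of_eq
            ring
      _ = _ := by
          simp only [Finset.sum_add_distrib, Finset.sum_ite_eq, Finset.sum_const, nsmul_eq_mul,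
            Finset.card_compl, Fintype.card_fin, hS]
          rw [Finset.sum_congr rfl (fun u hu => if_pos hu)]
          simp only [Finset.sum_const, nsmul_eq_mul, Finset.card_compl, Fintype.card_fin, hS]
          ring
  · exact Finset.sum_nonneg (fun w _ => Finset.sum_nonneg (fun w' _ => by positivity))
  · positivity

theorem twin_prob {n m : ℕ} {p c : ℝ} (h0 : 0 ≤ p) (h1 : p ≤ 1 / 2) (hc : 0 < c)
    {S : Finset (Fin n)} (hS : S.card = m)
    (ha : c ≤ m * (1 - p) ^ (m - 1)) (hb : c ≤ ((n - m : ℕ) : ℝ) * (1 - p) ^ m) :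
    c ^ 2 / ((1 + 2 * c) * (1 + c)) ≤
      Ex n p (fun G => if Twin m G S then (1:ℝ) else 0) := by
  set α := (m:ℝ) * (1 - p) ^ (m - 1) with hα
  set β := ((n - m : ℕ) : ℝ) * (1 - p) ^ m with hβ
  have hα0 : 0 < α := lt_of_lt_of_le hc ha
  have hβ0 : 0 < β := lt_of_lt_of_le hc hb
  set P := Ex n p (fun G => if X1 S G * X2 S G ≠ 0 then (1:ℝ) else 0) with hP
  have hPT : P ≤ Ex n p (fun G => if Twin m G S then (1:ℝ) else 0) := by
    apply Ex_mono h0 (by linarith)
    intro G
    by_cases hX : X1 S G * X2 S G ≠ 0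
    · rw [if_pos hX, if_pos (twin_of_X hS hX)]
    · rw [if_neg hX]
      split_ifs <;> norm_num
  have hcs := Ex_sq_le h0 (by linarith : p ≤ 1) (fun G => X1 S G * X2 S G)
  rw [Ex_X hS] at hcs
  have h2 := Ex_X_sq h0 h1 hS
  have hPn : 0 ≤ P := Ex_nonneg h0 (by linarith) (fun G => by split_ifs <;> norm_num)
  have h3 : (α * β) ^ 2 ≤ (α + 2 * α ^ 2) * (β + β ^ 2) * P :=
    hcs.trans (mul_le_mul_of_nonneg_right h2 hPn)
  have h4 : α * β ≤ ((1 + 2 * α) * (1 + β)) * P := by
    have : (α * β) * (α * β) ≤ (α * β) * (((1 + 2 * α) * (1 + β)) * P) := by nlinarith [h3]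
    exact le_of_mul_le_mul_left this (by positivity)
  refine le_trans ?_ hPT
  have h5 : c / (1 + 2 * c) ≤ α / (1 + 2 * α) := by
    rw [div_le_div_iff₀ (by positivity) (by positivity)]
    nlinarith
  have h6 : c / (1 + c) ≤ β / (1 + β) := by
    rw [div_le_div_iff₀ (by positivity) (by positivity)]
    nlinarith
  calc c ^ 2 / ((1 + 2 * c) * (1 + c)) = (c / (1 + 2 * c)) * (c / (1 + c)) := by
        rw [div_mul_div_comm]; ring_nf
    _ ≤ (α / (1 + 2 * α)) * (β / (1 + β)) := mul_le_mul h5 h6 (by positivity) (by positivity)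
    _ = (α * β) / ((1 + 2 * α) * (1 + β)) := by rw [div_mul_div_comm]
    _ ≤ P := by
        rw [div_le_iff₀ (by positivity)]
        linarith

/-- Case A bound. -/
theorem success_le_caseA {n m : ℕ} {p c : ℝ} (h0 : 0 ≤ p) (h1 : p ≤ 1 / 2) (hc : 0 < c)
    (hmn : m ≤ n)
    (ha : c ≤ m * (1 - p) ^ (m - 1)) (hb : c ≤ ((n - m : ℕ) : ℝ) * (1 - p) ^ m)
    (A : Estimator n m) :
    success n m p A ≤ 1 - (1 / 2) * (c ^ 2 / ((1 + 2 * c) * (1 + c))) := by
  have hC : (0:ℝ) < (n.choose m : ℝ) := by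
    exact_mod_cast Nat.choose_pos hmn
  have h2 : p ≤ 1 := by linarith
  refine (success_le h0 h2 A).trans ?_
  rw [div_le_iff₀ hC]
  have h3 : Ex n p (fun G => (numC m G : ℝ)) ≤
      Ex n p (fun G => ∑ S ∈ powersetCard m (univ : Finset (Fin n)),
      (1 - (1/2) * (if Twin m G S then (1:ℝ) else 0))) :=
    Ex_mono h0 h2 (fun G => numC_le_twin G)
  refine h3.trans ?_
  rw [Ex_sum]
  calc ∑ S ∈ powersetCard m (univ : Finset (Fin n)),
        Ex n p (fun G => (1 - (1/2) * (if Twin m G S then (1:ℝ) else 0)))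
      ≤ ∑ S ∈ powersetCard m (univ : Finset (Fin n)),
        (1 - (1 / 2) * (c ^ 2 / ((1 + 2 * c) * (1 + c)))) := by
        refine Finset.sum_le_sum (fun S hS => ?_)
        rw [Finset.mem_powersetCard] at hS
        have h4 := twin_prob h0 h1 hc hS.2 ha hb
        have h5 : Ex n p (fun G => (1 - (1/2) * (if Twin m G S then (1:ℝ) else 0)))
            = 1 - (1/2) * Ex n p (fun G => if Twin m G S then (1:ℝ) else 0) := by
          have e1 : (fun G : SimpleGraph (Fin n) =>
              (1 - (1/2) * (if Twin m G S then (1:ℝ) else 0)))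
              = fun G => (1:ℝ) + (-(1/2)) * (if Twin m G S then (1:ℝ) else 0) := by
            funext G; ring
          rw [e1, Ex_add, Ex_one, Ex_mul]
          ring
        rw [h5]
        linarith
    _ = _ := by
        rw [Finset.sum_const, Finset.card_powersetCard, Finset.card_univ, Fintype.card_fin,
          nsmul_eq_mul]
        ring

end Pool.Agent.Q287.SR
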