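import Mathlib

/-! The real inequality behind the tilted count. -/

namespace Pool.Agent.Q287.SR

theorem sqrt_log_le {p : ℝ} (hp : 0 < p) : Real.sqrt p * (-Real.log p) ≤ 2 := by
  have hs : 0 < Real.sqrt p := Real.sqrt_pos.2 hp
  have h1 : Real.log p = 2 * Real.log (Real.sqrt p) := by
    rw [Real.log_sqrt hp.le]; ring
  have h2 : -Real.log (Real.sqrt p) ≤ 1 / Real.sqrt p - 1 := by
    have := Real.log_le_sub_one_of_pos (x := (Real.sqrt p)⁻¹) (by positivity)
    rw [Real.log_inv] at this
    rw [one_div]; exact this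
  rw [h1]
  have h3 : Real.sqrt p * (-(2 * Real.log (Real.sqrt p))) ≤ Real.sqrt p * (2 * (1 / Real.sqrt p - 1)) := by
    apply mul_le_mul_of_nonneg_left _ hs.le
    linarith
  have h4 : Real.sqrt p * (2 * (1 / Real.sqrt p - 1)) = 2 - 2 * Real.sqrt p := by
    field_simp
  linarith

theorem log_le_four {m : ℝ} (hm : 0 < m) : (Real.log m) ^ 2 ≤ 16 * Real.sqrt m ∨ Real.log m < 0 := by
  by_cases h : Real.log m < 0
  · right; exact h
  left
  push Not at h
  set r := Real.sqrt (Real.sqrt m) with hr
  have hr0 : 0 < r := by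
    rw [hr]; exact Real.sqrt_pos.2 (Real.sqrt_pos.2 hm)
  have h1 : r ^ 2 = Real.sqrt m := by
    rw [hr, Real.sq_sqrt (Real.sqrt_nonneg m)]
  have h2 : Real.log m = 4 * Real.log r := by
    rw [hr, Real.log_sqrt (Real.sqrt_nonneg m), Real.log_sqrt hm.le]; ring
  have h3 : Real.log r ≤ r := (Real.log_le_sub_one_of_pos hr0).trans (by linarith)
  have h4 : Real.log m ≤ 4 * r := by linarith
  rw [← h1]
  nlinarith

theorem tilt {m s f μ p Δ : ℝ} (hm : 1 ≤ m) (hm2 : m = 1 ∨ 2 ≤ m) (hp : 0 < p) (hp2 : p ≤ 1 / 2)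
    (ha : Real.log m ≤ m * p) (hs0 : 0 ≤ s) (hs : s ≤ m) (hf0 : 0 ≤ f) (hμ0 : 0 ≤ μ)
    (hfμ : f + μ = m * (m - 1) / 2) (hf : f ≤ (m - s) ^ 2 / 2 + s) (hΔ0 : 0 ≤ Δ)
    (hΔ : Δ ≤ Real.sqrt m * Real.sqrt (2 * (m * p))) :
    ∃ y : ℝ, 0 < y ∧
      f * Real.log ((1 - p) + p * y) + μ / 2 * Real.log ((1 - p) ^ 2 + (p * y) ^ 2)
        - (m * (m - 1) / 2) * p * Real.log y
        + Δ * |Real.log p + Real.log y - Real.log (1 - p)| ≤ 2000 * m - s * Real.log m := by
  have hm0 : 0 < m := by linarith
  set L := Real.log m with hL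
  have hL0 : 0 ≤ L := Real.log_nonneg hm
  set a := m * p with hadef
  have ha0 : 0 < a := by positivity
  have ham : a ≤ m / 2 := by rw [hadef]; nlinarith
  set R := Real.sqrt m with hR
  have hR0 : 0 < R := Real.sqrt_pos.2 hm0
  have hR2 : R * R = m := Real.mul_self_sqrt hm0.le
  have hR1 : 1 ≤ R := by
    rw [hR]; exact Real.one_le_sqrt.2 hm
  have hRm : R ≤ m := by nlinarith
  have hq0 : 0 < 1 - p := by linarith
  have hlq : Real.log (1 - p) ≤ 0 := Real.log_nonpos hq0.le (by linarith)
  have hlpq : Real.log p ≤ Real.log (1 - p) := Real.log_le_log hp (by linarith)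
  -- the term Δ (-log p)
  have hD1 : Δ * (-Real.log p) ≤ 3 * m := by
    have hlp : 0 ≤ -Real.log p := by
      have := Real.log_nonpos hp.le (by linarith : p ≤ 1)
      linarith
    have h1 : Real.sqrt (2 * a) = Real.sqrt 2 * (R * Real.sqrt p) := by
      rw [hadef, Real.sqrt_mul (by norm_num), Real.sqrt_mul hm0.le]
    have h2 : Real.sqrt 2 ≤ 3 / 2 := by
      rw [Real.sqrt_le_left (by norm_num)]; norm_num
    have h3 := sqrt_log_le hp
    calc Δ * (-Real.log p) ≤ (R * Real.sqrt (2 * a)) * (-Real.log p) :=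
          mul_le_mul_of_nonneg_right hΔ hlp
      _ = (R * R) * Real.sqrt 2 * (Real.sqrt p * (-Real.log p)) := by rw [h1]; ring
      _ ≤ (R * R) * Real.sqrt 2 * 2 := by
          apply mul_le_mul_of_nonneg_left h3 (by positivity)
      _ ≤ m * (3 / 2) * 2 := by
          rw [hR2]
          apply mul_le_mul_of_nonneg_right _ (by norm_num)
          exact mul_le_mul_of_nonneg_left h2 hm0.le
      _ = 3 * m := by ring
  have habs : ∀ y : ℝ, |Real.log p + Real.log y - Real.log (1 - p)| ≤ |Real.log y| + -Real.log p := by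
    intro y
    have h1 : |Real.log p + Real.log y - Real.log (1 - p)|
        ≤ |Real.log y| + |Real.log p - Real.log (1 - p)| := by
      have : Real.log p + Real.log y - Real.log (1 - p)
          = Real.log y + (Real.log p - Real.log (1 - p)) := by ring
      rw [this]
      exact abs_add_le _ _
    have h2 : |Real.log p - Real.log (1 - p)| ≤ -Real.log p := by
      rw [abs_of_nonpos (by linarith)]
      linarith
    linarith
  by_cases hreg : 8 * L ≤ a
  · -- regime 1
    refine ⟨1, one_pos, ?_⟩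
    have h1 : (1 - p) + p * 1 = 1 := by ring
    rw [h1, Real.log_one]
    have h2 : Real.log ((1 - p) ^ 2 + (p * 1) ^ 2) ≤ -(2 * p * (1 - p)) := by
      have := Real.log_le_sub_one_of_pos (x := (1 - p) ^ 2 + (p * 1) ^ 2) (by positivity)
      nlinarith
    have h3 : μ / 2 * Real.log ((1 - p) ^ 2 + (p * 1) ^ 2) ≤ μ / 2 * (-p) := by
      apply mul_le_mul_of_nonneg_left _ (by linarith)
      nlinarith
    have h4 := habs 1
    rw [Real.log_one, abs_zero, zero_add] at h4
    have h5 : Δ * |Real.log p + 0 - Real.log (1 - p)| ≤ 3 * m :=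
      (mul_le_mul_of_nonneg_left h4 hΔ0).trans hD1
    have h6 : (m * s - m - 2 * s) / 2 ≤ μ := by nlinarith
    have h7 : μ / 2 * (-p) ≤ -(a * s) / 4 + m := by
      have : (m * s - m - 2 * s) / 2 * p ≤ μ * p := mul_le_mul_of_nonneg_right h6 hp.le
      have e : (m * s - m - 2 * s) / 2 * p = a * s / 2 - a / 2 - s * p := by rw [hadef]; ring
      have : s * p ≤ m * (1 / 2) := mul_le_mul hs hp2 hp.le hm0.le
      nlinarith
    have h8 : 8 * L * s ≤ a * s := mul_le_mul_of_nonneg_right hreg hs0
    have h9 : 0 ≤ L * s := by positivity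
    nlinarith
  · -- regime 2
    push Not at hreg
    have hLpos : 0 < L := by linarith
    have hm2' : 2 ≤ m := by
      rcases hm2 with h | h
      · rw [hL, h, Real.log_one] at hLpos
        exact absurd hLpos (lt_irrefl _)
      · exact h
    have hL2 : 1 / 2 ≤ L := by
      rw [hL]
      have h1 : Real.log 2 ≤ Real.log m := Real.log_le_log (by norm_num) hm2'
      have h2 := Real.log_two_gt_d9
      linarith
    have ha2 : 1 / 2 ≤ a := by linarith
    have hLsq : L ^ 2 ≤ 16 * R := by
      rcases log_le_four hm0 with h | h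
      · exact h
      · linarith
    have hasq : a ^ 2 ≤ 1024 * R := by nlinarith
    set δ := a / R with hδ
    have hδ0 : 0 < δ := by positivity
    have hδR : δ * R = a := by rw [hδ]; field_simp
    set T := 1 - s / m + δ with hT
    have hx1 : s / m ≤ 1 := by rw [div_le_one hm0]; exact hs
    have hx0 : 0 ≤ s / m := by positivity
    have hTδ : δ ≤ T := by rw [hT]; linarith
    have hT0 : 0 < T := by linarith
    have hmT : m - s ≤ m * T := by
      rw [hT]
      have : m * (1 - s / m + δ) = m - s + m * δ := by field_simp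
      rw [this]
      have : 0 < m * δ := by positivity
      linarith
    refine ⟨T⁻¹, by positivity, ?_⟩
    have hly : Real.log T⁻¹ = -Real.log T := Real.log_inv T
    have hTinv : T⁻¹ ≤ R / a := by
      have : R / a = δ⁻¹ := by rw [hδ]; field_simp
      rw [this]
      exact inv_anti₀ hδ0 hTδ
    -- t1
    have t1 : f * Real.log ((1 - p) + p * T⁻¹) ≤ f * (p * T⁻¹ - p) := by
      apply mul_le_mul_of_nonneg_left _ hf0
      have := Real.log_le_sub_one_of_pos (x := (1 - p) + p * T⁻¹) (by positivity)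
      linarith
    have t2 : μ / 2 * Real.log ((1 - p) ^ 2 + (p * T⁻¹) ^ 2)
        ≤ μ / 2 * (-2 * p + p ^ 2 + (p * T⁻¹) ^ 2) := by
      apply mul_le_mul_of_nonneg_left _ (by linarith)
      have := Real.log_le_sub_one_of_pos (x := (1 - p) ^ 2 + (p * T⁻¹) ^ 2) (by positivity)
      nlinarith
    have t3 : (m * (m - 1) / 2) * p * Real.log T ≤ (m * (m - 1) / 2) * p * (δ - s / m) := by
      apply mul_le_mul_of_nonneg_left _ (by
        have : 0 ≤ m - 1 := by linarith
        positivity)
      have := Real.log_le_sub_one_of_pos hT0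
      rw [hT] at this ⊢
      linarith
    -- f p y
    have t4 : f * (p * T⁻¹) ≤ a * (m - s) / 2 + R := by
      have e1 : f * (p * T⁻¹) ≤ ((m - s) ^ 2 / 2 + s) * (p * T⁻¹) :=
        mul_le_mul_of_nonneg_right hf (by positivity)
      have e2 : (m - s) ^ 2 / 2 * (p * T⁻¹) ≤ a * (m - s) / 2 := by
        have h1 : (m - s) * T⁻¹ ≤ m := by
          rw [mul_inv_le_iff₀ hT0]; exact hmT
        have h2 : 0 ≤ (m - s) * p / 2 := by
          have : 0 ≤ m - s := by linarith
          positivity
        calc (m - s) ^ 2 / 2 * (p * T⁻¹) = ((m - s) * p / 2) * ((m - s) * T⁻¹) := by ring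
          _ ≤ ((m - s) * p / 2) * m := mul_le_mul_of_nonneg_left h1 h2
          _ = _ := by rw [hadef]; ring
      have e3 : s * (p * T⁻¹) ≤ R := by
        calc s * (p * T⁻¹) ≤ s * (p * (R / a)) := by
              apply mul_le_mul_of_nonneg_left _ hs0
              exact mul_le_mul_of_nonneg_left hTinv hp.le
          _ = (s / m) * R := by rw [hadef]; field_simp
          _ ≤ 1 * R := mul_le_mul_of_nonneg_right hx1 hR0.le
          _ = R := one_mul _
      calc _ ≤ ((m - s) ^ 2 / 2 + s) * (p * T⁻¹) := e1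
        _ = (m - s) ^ 2 / 2 * (p * T⁻¹) + s * (p * T⁻¹) := by ring
        _ ≤ _ := add_le_add e2 e3
    have t5 : μ / 2 * (p ^ 2 + (p * T⁻¹) ^ 2) ≤ a ^ 2 / 4 + m / 4 := by
      have hμM : μ ≤ m ^ 2 / 2 := by nlinarith
      have h1 : (p * T⁻¹) ^ 2 ≤ 1 / m := by
        have : p * T⁻¹ ≤ p * (R / a) := mul_le_mul_of_nonneg_left hTinv hp.le
        have e : p * (R / a) = R / m := by rw [hadef]; field_simp
        rw [e] at this
        calc (p * T⁻¹) ^ 2 ≤ (R / m) ^ 2 := pow_le_pow_left₀ (by positivity) this 2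
          _ = 1 / m := by
              rw [div_pow, pow_two R, hR2]; field_simp
      calc μ / 2 * (p ^ 2 + (p * T⁻¹) ^ 2) ≤ (m ^ 2 / 2) / 2 * (p ^ 2 + 1 / m) := by
            apply mul_le_mul _ _ (by positivity) (by positivity)
            · linarith
            · linarith
        _ = a ^ 2 / 4 + m / 4 := by rw [hadef]; field_simp; ring
    -- Δ |log y|
    have t6 : Δ * |Real.log T⁻¹| ≤ (a + a ^ 2) + 3 * m := by
      have h1 : |Real.log T⁻¹| ≤ δ + R / a := by
        rw [hly, abs_neg, abs_le]
        constructor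
        · have := Real.log_le_sub_one_of_pos (x := T⁻¹) (by positivity)
          rw [hly] at this
          linarith
        · have := Real.log_le_sub_one_of_pos hT0
          have h3 : T - 1 ≤ δ := by rw [hT]; linarith
          have h4 : 0 < R / a := by positivity
          linarith
      have hs2a : Real.sqrt (2 * a) ≤ 1 + a := by
        rw [Real.sqrt_le_left (by positivity)]
        nlinarith [sq_nonneg a]
      have hs2b : Real.sqrt (2 * a) ≤ 3 * a := by
        rw [Real.sqrt_le_left (by positivity)]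
        nlinarith
      calc Δ * |Real.log T⁻¹| ≤ (R * Real.sqrt (2 * a)) * (δ + R / a) :=
            mul_le_mul hΔ h1 (abs_nonneg _) (by positivity)
        _ = Real.sqrt (2 * a) * (δ * R) + (R * R) * (Real.sqrt (2 * a) / a) := by
            field_simp
        _ ≤ (1 + a) * a + m * 3 := by
            rw [hδR, hR2]
            apply add_le_add
            · exact mul_le_mul_of_nonneg_right hs2a ha0.le
            · apply mul_le_mul_of_nonneg_left _ hm0.le
              rw [div_le_iff₀ ha0]
              exact hs2b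
        _ = _ := by ring
    have t7 : Δ * |Real.log p + Real.log T⁻¹ - Real.log (1 - p)| ≤ (a + a ^ 2) + 3 * m + 3 * m := by
      calc _ ≤ Δ * (|Real.log T⁻¹| + -Real.log p) := mul_le_mul_of_nonneg_left (habs _) hΔ0
        _ = Δ * |Real.log T⁻¹| + Δ * (-Real.log p) := by ring
        _ ≤ _ := add_le_add t6 hD1
    have e1 : (m * (m - 1) / 2) * p * (δ - s / m) = m * a * δ / 2 - a * s / 2
        - a * δ / 2 + p * s / 2 := by
      rw [hadef]; field_simp; ring
    have e2 : m * a * δ / 2 = a ^ 2 * R / 2 := by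
      rw [← hR2, hδ]; field_simp
    have e3 : a ^ 2 * R ≤ 1024 * m := by
      have h1 := mul_le_mul_of_nonneg_right hasq hR0.le
      rw [mul_assoc, hR2] at h1
      exact h1
    have e4 : p * s ≤ m := by
      have h1 : p * s ≤ 1 * m := mul_le_mul (by linarith) hs hs0 (by norm_num)
      linarith
    have e5 : 0 < a * δ := by positivity
    have e6 : a ^ 2 ≤ 1024 * m := hasq.trans (by linarith)
    have e7 : L * s ≤ a * s := mul_le_mul_of_nonneg_right ha hs0
    have e8 : f * p + μ * p = a * m / 2 - a / 2 := by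
      rw [← add_mul, hfμ, hadef]; ring
    have e9 : f * (p * T⁻¹ - p) = f * (p * T⁻¹) - f * p := by ring
    have e10 : μ / 2 * (-2 * p + p ^ 2 + (p * T⁻¹) ^ 2)
        = -(μ * p) + μ / 2 * (p ^ 2 + (p * T⁻¹) ^ 2) := by ring
    rw [e9] at t1
    rw [e10] at t2
    rw [e1, e2] at t3
    rw [hly] at t7 ⊢
    have e11 : (m * (m - 1) / 2) * p * (-Real.log T) = -((m * (m - 1) / 2) * p * Real.log T) := by
      ring
    rw [e11]
    linarith

end Pool.Agent.Q287.SR
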