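import Pool.Agent.Q287.SR.Burn
import Pool.Agent.Q287.SR.Tilt

/-! Case B: counting isomorphism classes of typical graphs. -/

open Finset BigOperators
open scoped Classical

namespace Pool.Agent.Q287.SR

/-- number of edges of a graph on `[m]` (as a real number) -/
noncomputable def ec {m : ℕ} (K : SimpleGraph (Fin m)) : ℝ :=
  ∑ e : Ed m, if e.1 ∈ K.edgeSet then (1:ℝ) else 0

theorem sum_one_Ed (m : ℕ) : ∑ _e : Ed m, (1:ℝ) = m * (m - 1) / 2 := by
  rw [Finset.sum_const, Finset.card_univ, card_Ed, nsmul_eq_mul, mul_one, Nat.cast_choose_two]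

theorem ec_smul {m : ℕ} (σ : Equiv.Perm (Fin m)) (K : SimpleGraph (Fin m)) :
    ec (σ • K) = ec K := by
  unfold ec
  rw [← Equiv.sum_comp (edPerm σ)]
  refine Finset.sum_congr rfl (fun e _ => ?_)
  have : ((edPerm σ e).1 ∈ (σ • K).edgeSet) ↔ e.1 ∈ K.edgeSet := smul_mem_edgeSet σ K e.1
  simp only [this]

theorem wt_eq {m : ℕ} {a b : ℝ} (ha : 0 < a) (hb : 0 < b) (K : SimpleGraph (Fin m)) :
    wt a b K = Real.exp (ec K * Real.log a + (m * (m - 1) / 2 - ec K) * Real.log b) := by
  have h1 : ∀ e : Ed m, (if e.1 ∈ K.edgeSet then a else b)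
      = Real.exp ((if e.1 ∈ K.edgeSet then (1:ℝ) else 0) * Real.log a
        + (1 - (if e.1 ∈ K.edgeSet then (1:ℝ) else 0)) * Real.log b) := by
    intro e
    split_ifs
    · rw [one_mul, sub_self, zero_mul, add_zero, Real.exp_log ha]
    · rw [zero_mul, sub_zero, one_mul, zero_add, Real.exp_log hb]
  unfold wt
  rw [Finset.prod_congr rfl (fun e _ => h1 e), ← Real.exp_sum, Finset.sum_add_distrib,
    ← Finset.sum_mul, ← Finset.sum_mul, Finset.sum_sub_distrib, sum_one_Ed]
  rfl

/-- Typical graphs: the number of edges is close to its mean. -/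
def Typ (m : ℕ) (p : ℝ) (K : SimpleGraph (Fin m)) : Prop :=
  |ec K - (m * (m - 1) / 2) * p| ≤ 2 * Real.sqrt ((m * (m - 1) / 2) * (p * (1 - p)))

theorem Typ_smul {m : ℕ} {p : ℝ} (σ : Equiv.Perm (Fin m)) (K : SimpleGraph (Fin m))
    (h : Typ m p K) : Typ m p (σ • K) := by
  unfold Typ at *
  rw [ec_smul]
  exact h

theorem binEnt (p : ℝ) : Real.binEntropy p = -(p * Real.log p) - (1 - p) * Real.log (1 - p) := by
  unfold Real.binEntropy
  rw [Real.log_inv, Real.log_inv]
  ring

theorem count_inv {m : ℕ} {p : ℝ} (hm : 1 ≤ m) (hp : 0 < p) (hp2 : p ≤ 1 / 2)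
    (ha : Real.log m ≤ m * p) (σ : Equiv.Perm (Fin m)) :
    (((univ : Finset (SimpleGraph (Fin m))).filter (fun K => Typ m p K ∧ σ • K = K)).card : ℝ)
      ≤ Real.exp ((m * (m - 1) / 2) * Real.binEntropy p + 2000 * m) * (1 / m) ^ σ.support.card := by
  have hm1 : (1:ℝ) ≤ m := by exact_mod_cast hm
  have hm0 : (0:ℝ) < m := by linarith
  have hq : 0 < 1 - p := by linarith
  set s := σ.support.card with hs
  have hsm : s ≤ m := by
    have := Finset.card_le_univ σ.support
    rwa [Fintype.card_fin] at this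
  set f := ((univ : Finset (Ed m)).filter (fun e => edPerm σ e = e)).card with hf
  set μ := ((univ : Finset (Ed m)).filter (fun e => ¬ edPerm σ e = e)).card with hμ
  have hfμ : (f:ℝ) + μ = m * (m - 1) / 2 := by
    have h1 : f + μ = m.choose 2 := by
      rw [hf, hμ, Finset.card_filter_add_card_filter_not, Finset.card_univ, card_Ed]
    rw [← Nat.cast_choose_two, ← h1]
    push_cast
    rfl
  have hf2 : (f:ℝ) ≤ ((m:ℝ) - s) ^ 2 / 2 + s := by
    have h1 := fixed_card_le σ
    have h2 : (f:ℝ) ≤ ((m - s).choose 2 : ℝ) + s := by exact_mod_cast h1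
    have h3 : (((m - s).choose 2 : ℕ) : ℝ) = ((m:ℝ) - s) * ((m:ℝ) - s - 1) / 2 := by
      rw [Nat.cast_choose_two, Nat.cast_sub hsm]
    rw [h3] at h2
    have h4 : (0:ℝ) ≤ (m:ℝ) - s := by
      have : (s:ℝ) ≤ m := by exact_mod_cast hsm
      linarith
    nlinarith
  set Δ := 2 * Real.sqrt (((m:ℝ) * (m - 1) / 2) * (p * (1 - p))) with hΔ
  have hΔ0 : 0 ≤ Δ := by positivity
  have hΔ2 : Δ ≤ Real.sqrt m * Real.sqrt (2 * (m * p)) := by
    have e1 : (2:ℝ) = Real.sqrt 4 := by
      rw [show (4:ℝ) = 2 ^ 2 by norm_num, Real.sqrt_sq (by norm_num)]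
    rw [hΔ]
    conv_lhs => rw [e1]
    rw [← Real.sqrt_mul (by norm_num), ← Real.sqrt_mul hm0.le]
    apply Real.sqrt_le_sqrt
    have h1 : 0 ≤ (m:ℝ) * p := by positivity
    have h2 : ((m:ℝ) - 1) * (1 - p) ≤ m := by nlinarith
    nlinarith [mul_le_mul_of_nonneg_left h2 h1]
  have hmm : (m:ℝ) = 1 ∨ 2 ≤ (m:ℝ) := by
    rcases Nat.lt_or_ge m 2 with h | h
    · left
      have : m = 1 := by omega
      rw [this]; norm_num
    · right
      exact_mod_cast h
  obtain ⟨y, hy0, hy⟩ := tilt (m := (m:ℝ)) (s := (s:ℝ)) (f := (f:ℝ)) (μ := (μ:ℝ)) (p := p) (Δ := Δ)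
    hm1 hmm hp hp2 ha (Nat.cast_nonneg _) (by exact_mod_cast hsm) (Nat.cast_nonneg _)
    (Nat.cast_nonneg _) hfμ hf2 hΔ0 hΔ2
  have hpy : 0 < p * y := by positivity
  set W := ∑ K : SimpleGraph (Fin m), if σ • K = K then wt (p * y) (1 - p) K else 0 with hW
  have hW0 : 0 ≤ W := by
    apply Finset.sum_nonneg
    intro K _
    split_ifs
    · rw [wt_eq hpy hq]; positivity
    · exact le_refl _
  have hWsq := inv_wt_sq_le σ hpy.le hq.le
  rw [← hW, Finset.prod_ite, Finset.prod_const, Finset.prod_const, ← hf, ← hμ] at hWsq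
  have hWle : W ≤ Real.exp (f * Real.log ((1 - p) + p * y)
      + μ / 2 * Real.log ((1 - p) ^ 2 + (p * y) ^ 2)) := by
    rw [← pow_le_pow_iff_left₀ hW0 (Real.exp_pos _).le (two_ne_zero)]
    refine hWsq.trans (le_of_eq ?_)
    rw [← Real.exp_nat_mul]
    have e1 : ((2:ℕ):ℝ) * (f * Real.log ((1 - p) + p * y)
      + μ / 2 * Real.log ((1 - p) ^ 2 + (p * y) ^ 2))
      = f * (2 * Real.log ((1 - p) + p * y)) + μ * Real.log ((1 - p) ^ 2 + (p * y) ^ 2) := by
      push_cast; ring
    rw [e1, Real.exp_add, Real.exp_nat_mul, Real.exp_nat_mul, Real.exp_log (by positivity),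
      show 2 * Real.log ((1 - p) + p * y) = ((2:ℕ):ℝ) * Real.log ((1 - p) + p * y) by norm_num,
      Real.exp_nat_mul, Real.exp_log (by positivity)]
    ring
  set D := |Real.log p + Real.log y - Real.log (1 - p)| with hD
  set θ := Real.exp (-((m * (m - 1) / 2) * Real.binEntropy p) + (m * (m - 1) / 2) * p * Real.log y
    - Δ * D) with hθ
  have hθK : ∀ K, Typ m p K → θ ≤ wt (p * y) (1 - p) K := by
    intro K hK
    rw [wt_eq hpy hq, hθ]
    apply Real.exp_le_exp.2
    rw [Real.log_mul hp.ne' hy0.ne', binEnt]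
    have h1 : |(ec K - (m * (m - 1) / 2) * p) * (Real.log p + Real.log y - Real.log (1 - p))|
        ≤ Δ * D := by
      rw [abs_mul]
      exact mul_le_mul_of_nonneg_right hK (abs_nonneg _)
    have h2 := (abs_le.1 h1).1
    nlinarith
  have hcount : (((univ : Finset (SimpleGraph (Fin m))).filter
      (fun K => Typ m p K ∧ σ • K = K)).card : ℝ) * θ ≤ W := by
    rw [← nsmul_eq_mul, ← Finset.sum_const, hW, ← Finset.sum_filter]
    calc ∑ K ∈ (univ : Finset (SimpleGraph (Fin m))).filter (fun K => Typ m p K ∧ σ • K = K), θ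
        ≤ ∑ K ∈ (univ : Finset (SimpleGraph (Fin m))).filter (fun K => Typ m p K ∧ σ • K = K),
          wt (p * y) (1 - p) K := by
          refine Finset.sum_le_sum (fun K hK => ?_)
          rw [Finset.mem_filter] at hK
          exact hθK K hK.2.1
      _ ≤ _ := by
          apply Finset.sum_le_sum_of_subset_of_nonneg
          · intro K hK
            rw [Finset.mem_filter] at hK ⊢
            exact ⟨Finset.mem_univ _, hK.2.2⟩
          · intro K _ _
            rw [wt_eq hpy hq]; positivity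
  have hfin : (((univ : Finset (SimpleGraph (Fin m))).filter
      (fun K => Typ m p K ∧ σ • K = K)).card : ℝ) ≤
      Real.exp (f * Real.log ((1 - p) + p * y)
      + μ / 2 * Real.log ((1 - p) ^ 2 + (p * y) ^ 2)) / θ := by
    rw [le_div_iff₀ (Real.exp_pos _)]
    exact hcount.trans hWle
  refine hfin.trans ?_
  rw [hθ, ← Real.exp_sub]
  have e2 : ((1:ℝ) / m) ^ s = Real.exp (-(s * Real.log m)) := by
    rw [← mul_neg, Real.exp_nat_mul, Real.exp_neg, Real.exp_log hm0, one_div]
  rw [e2, ← Real.exp_add]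
  apply Real.exp_le_exp.2
  linarith

theorem classes_typ {m : ℕ} {p : ℝ} (hm : 1 ≤ m) (hp : 0 < p) (hp2 : p ≤ 1 / 2)
    (ha : Real.log m ≤ m * p) :
    (m.factorial : ℝ) *
      (((univ : Finset (SimpleGraph (Fin m))).filter (Typ m p)).image toC).card
      ≤ Real.exp ((m * (m - 1) / 2) * Real.binEntropy p + 2001 * m) := by
  have h1 := classes_le (Typ m p) (fun σ K h => Typ_smul σ K h)
  have h2 : (m.factorial : ℝ) *
      (((univ : Finset (SimpleGraph (Fin m))).filter (Typ m p)).image toC).card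
      ≤ ∑ σ : Equiv.Perm (Fin m), (((univ : Finset (SimpleGraph (Fin m))).filter
        (fun K => Typ m p K ∧ σ • K = K)).card : ℝ) := by exact_mod_cast h1
  refine h2.trans ((Finset.sum_le_sum (fun σ _ => count_inv hm hp hp2 ha σ)).trans ?_)
  rw [← Finset.mul_sum]
  have h3 := sum_perm_le hm
  have h4 : (2:ℝ) ^ m ≤ Real.exp m := by
    have h5 : (2:ℝ) ≤ Real.exp 1 := by
      have := Real.exp_one_gt_d9
      linarith
    calc (2:ℝ) ^ m ≤ (Real.exp 1) ^ m := pow_le_pow_left₀ (by norm_num) h5 m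
      _ = Real.exp m := by rw [← Real.exp_nat_mul, mul_one]
  calc Real.exp ((m * (m - 1) / 2) * Real.binEntropy p + 2000 * m)
      * ∑ σ : Equiv.Perm (Fin m), ((1:ℝ) / m) ^ σ.support.card
      ≤ Real.exp ((m * (m - 1) / 2) * Real.binEntropy p + 2000 * m) * Real.exp m :=
        mul_le_mul_of_nonneg_left (h3.trans h4) (Real.exp_pos _).le
    _ = _ := by
        rw [← Real.exp_add]
        congr 1
        ring

theorem mem_relabel {n m : ℕ} (G : SimpleGraph (Fin n)) (S : Finset (Fin n))
    (π : {x // x ∈ S} ≃ Fin m) (e : Sym2 (Fin m)) :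
    e ∈ (relabel G S π).edgeSet ↔
      Sym2.map (fun i => ((π.symm i : {x // x ∈ S}) : Fin n)) e ∈ G.edgeSet := by
  induction e with
  | _ u v => exact Iff.rfl

/-- Chebyshev. -/
theorem cheb {n m : ℕ} {p : ℝ} (hp : 0 < p) (hp2 : p ≤ 1 / 2) {S : Finset (Fin n)}
    (hS : S.card = m) :
    Ex n p (fun G => if ∃ π : {x // x ∈ S} ≃ Fin m, ¬ Typ m p (relabel G S π) then (1:ℝ) else 0)
      ≤ 1 / 4 := by
  have hp1 : p ≤ 1 := by linarith
  have hq : 0 < 1 - p := by linarith
  set π0 := S.equivFinOfCardEq hS with hπ0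
  set φ : Fin m → Fin n := fun i => ((π0.symm i : {x // x ∈ S}) : Fin n) with hφ
  have hφi : Function.Injective φ := by
    intro i j h
    exact π0.symm.injective (Subtype.ext h)
  set M := (m:ℝ) * (m - 1) / 2 with hM
  have hM0 : 0 ≤ M := by
    rw [hM, ← Nat.cast_choose_two]
    positivity
  have hind : ∀ G, (∃ π : {x // x ∈ S} ≃ Fin m, ¬ Typ m p (relabel G S π)) ↔
      ¬ Typ m p (relabel G S π0) := by
    intro G
    constructor
    · rintro ⟨π, hπ⟩ h
      apply hπ
      have h2 : π = π0.trans (π0.symm.trans π) := by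
        ext x; simp
      rw [h2, relabel_trans]
      exact Typ_smul _ _ h
    · intro h
      exact ⟨π0, h⟩
  -- the number of edges as a sum of indicators
  have hY : ∀ G, ec (relabel G S π0) = ∑ e : Ed m, present {Sym2.map φ e.1} G := by
    intro G
    unfold ec present
    refine Finset.sum_congr rfl (fun e _ => ?_)
    simp only [Finset.mem_singleton, forall_eq, mem_relabel]
    rfl
  have hsub : ∀ e : Ed m, Sym2.map φ e.1 ∈ pairs n := by
    intro e
    simp only [pairs, Finset.mem_filter, Finset.mem_univ, true_and]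
    rw [Sym2.isDiag_map hφi]
    exact e.2
  have hEY : Ex n p (fun G => ec (relabel G S π0)) = M * p := by
    rw [show (fun G => ec (relabel G S π0)) = _ from funext hY, Ex_sum]
    have : ∀ e : Ed m, Ex n p (present {Sym2.map φ e.1}) = 1 * p := by
      intro e
      rw [Ex_present p (Finset.singleton_subset_iff.2 (hsub e)), Finset.card_singleton]
      ring
    rw [Finset.sum_congr rfl (fun e _ => this e), ← Finset.sum_mul, sum_one_Ed]
  have hEY2 : Ex n p (fun G => ec (relabel G S π0) ^ 2) ≤ (M * p) ^ 2 + M * (p * (1 - p)) := by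
    have e1 : ∀ G, ec (relabel G S π0) ^ 2
        = ∑ e : Ed m, ∑ e' : Ed m, present ({Sym2.map φ e.1} ∪ {Sym2.map φ e'.1}) G := by
      intro G
      rw [hY, pow_two, Finset.sum_mul_sum]
      refine Finset.sum_congr rfl (fun e _ => Finset.sum_congr rfl (fun e' _ => ?_))
      unfold present
      simp only [Finset.mem_singleton, forall_eq, Finset.mem_union, forall_eq_or_imp]
      by_cases h1 : Sym2.map φ e.1 ∈ G.edgeSet <;> by_cases h2 : Sym2.map φ e'.1 ∈ G.edgeSet <;>
        simp [h1, h2]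
    rw [show (fun G => ec (relabel G S π0) ^ 2) = _ from funext e1, Ex_sum]
    have e2 : ∀ e : Ed m, Ex n p (fun G => ∑ e' : Ed m,
        present ({Sym2.map φ e.1} ∪ {Sym2.map φ e'.1}) G) = M * p ^ 2 + (p - p ^ 2) := by
      intro e
      rw [Ex_sum]
      have e3 : ∀ e' : Ed m, Ex n p (present ({Sym2.map φ e.1} ∪ {Sym2.map φ e'.1}))
          = 1 * p ^ 2 + (if e' = e then (p - p ^ 2) else 0) := by
        intro e'
        rw [Ex_present p (Finset.union_subset (Finset.singleton_subset_iff.2 (hsub e))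
          (Finset.singleton_subset_iff.2 (hsub e')))]
        by_cases h : e' = e
        · subst h
          rw [Finset.union_self, Finset.card_singleton, if_pos rfl]
          ring
        · rw [if_neg h, Finset.card_union_of_disjoint, Finset.card_singleton,
            Finset.card_singleton]
          · ring
          · rw [Finset.disjoint_singleton]
            intro hh
            apply h
            apply Subtype.ext
            exact (Sym2.map.injective hφi hh).symm
      rw [Finset.sum_congr rfl (fun e' _ => e3 e'), Finset.sum_add_distrib, ← Finset.sum_mul,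
        sum_one_Ed, Finset.sum_ite_eq', if_pos (Finset.mem_univ _)]
    rw [Finset.sum_congr rfl (fun e _ => e2 e), Finset.sum_const, Finset.card_univ, card_Ed,
      nsmul_eq_mul, Nat.cast_choose_two, ← hM]
    apply le_of_eq
    ring
  have hVar : Ex n p (fun G => (ec (relabel G S π0) - M * p) ^ 2) ≤ M * (p * (1 - p)) := by
    have e1 : (fun G => (ec (relabel G S π0) - M * p) ^ 2)
        = fun G => (ec (relabel G S π0) ^ 2 + (-(2 * (M * p))) * ec (relabel G S π0))
          + (M * p) ^ 2 := by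
      funext G; ring
    rw [e1, Ex_add, Ex_add, Ex_mul, hEY, Ex_const]
    nlinarith
  rcases eq_or_lt_of_le hM0 with hM1 | hM1
  · -- M = 0
    have hne : IsEmpty (Ed m) := by
      rw [← Fintype.card_eq_zero_iff, card_Ed]
      have h1 : ((m.choose 2 : ℕ) : ℝ) = 0 := by rw [Nat.cast_choose_two, ← hM, ← hM1]
      exact_mod_cast h1
    have hall : ∀ G, (if ∃ π : {x // x ∈ S} ≃ Fin m, ¬ Typ m p (relabel G S π) then (1:ℝ) else 0)
        = 0 := by
      intro G
      rw [if_neg]
      rw [hind]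
      push Not
      unfold Typ
      rw [← hM, ← hM1]
      unfold ec
      simp
    rw [show (fun G => (if ∃ π : {x // x ∈ S} ≃ Fin m, ¬ Typ m p (relabel G S π) then (1:ℝ)
      else 0)) = fun _ => 0 from funext hall, Ex_const]
    norm_num
  · have hv : 0 < M * (p * (1 - p)) := by positivity
    have hle : ∀ G, (if ∃ π : {x // x ∈ S} ≃ Fin m, ¬ Typ m p (relabel G S π) then (1:ℝ) else 0)
        ≤ (1 / (4 * (M * (p * (1 - p))))) * (ec (relabel G S π0) - M * p) ^ 2 := by
      intro G
      split_ifs with h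
      · rw [hind] at h
        unfold Typ at h
        push Not at h
        rw [← hM] at h
        have h2 : (2 * Real.sqrt (M * (p * (1 - p)))) ^ 2 ≤ |ec (relabel G S π0) - M * p| ^ 2 :=
          pow_le_pow_left₀ (by positivity) h.le 2
        rw [sq_abs, mul_pow, Real.sq_sqrt hv.le] at h2
        rw [one_div, inv_mul_eq_div, le_div_iff₀ (by positivity)]
        linarith
      · positivity
    calc _ ≤ Ex n p (fun G => (1 / (4 * (M * (p * (1 - p)))))
          * (ec (relabel G S π0) - M * p) ^ 2) := Ex_mono hp.le hp1 hle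
      _ = (1 / (4 * (M * (p * (1 - p))))) * Ex n p (fun G => (ec (relabel G S π0) - M * p) ^ 2) :=
          Ex_mul _ _ _
      _ ≤ (1 / (4 * (M * (p * (1 - p))))) * (M * (p * (1 - p))) :=
          mul_le_mul_of_nonneg_left hVar (by positivity)
      _ = 1 / 4 := by field_simp

/-- Case B bound. -/
theorem success_le_caseB {n m : ℕ} {p : ℝ} (hm : 1 ≤ m) (hmn : 2 * m ≤ n) (hp : 0 < p)
    (hp2 : p ≤ 1 / 2) (ha : Real.log m ≤ m * p)
    (hcond : (m:ℝ) / 2 * Real.binEntropy p - Real.log n ≤ -2004)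
    (A : Estimator n m) : success n m p A ≤ 3 / 4 := by
  have hp1 : p ≤ 1 := by linarith
  have hC : (0:ℝ) < (n.choose m : ℝ) := by
    exact_mod_cast Nat.choose_pos (by omega)
  have hm1 : (1:ℝ) ≤ m := by exact_mod_cast hm
  have hm0 : (0:ℝ) < m := by linarith
  have hn0 : (0:ℝ) < n := by
    have : 0 < n := by omega
    exact_mod_cast this
  refine (success_le hp.le hp1 A).trans ?_
  set N := ((((univ : Finset (SimpleGraph (Fin m))).filter (Typ m p)).image toC).card : ℝ) with hN
  have h1 : Ex n p (fun G => (numC m G : ℝ)) ≤ N + (n.choose m : ℝ) * (1 / 4) := by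
    calc Ex n p (fun G => (numC m G : ℝ)) ≤ Ex n p (fun G => N +
          ∑ S ∈ powersetCard m (univ : Finset (Fin n)),
          (if ∃ π : {x // x ∈ S} ≃ Fin m, ¬ Typ m p (relabel G S π) then (1:ℝ) else 0)) :=
          Ex_mono hp.le hp1 (fun G => numC_le_typ G (Typ m p))
      _ = N + ∑ S ∈ powersetCard m (univ : Finset (Fin n)), Ex n p (fun G =>
          (if ∃ π : {x // x ∈ S} ≃ Fin m, ¬ Typ m p (relabel G S π) then (1:ℝ) else 0)) := by
          rw [Ex_add, Ex_const, Ex_sum]
      _ ≤ N + ∑ S ∈ powersetCard m (univ : Finset (Fin n)), (1 / 4 : ℝ) := by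
          apply add_le_add_right
          refine Finset.sum_le_sum (fun S hS => ?_)
          rw [Finset.mem_powersetCard] at hS
          exact cheb hp hp2 hS.2
      _ = _ := by
          rw [Finset.sum_const, Finset.card_powersetCard, Finset.card_univ, Fintype.card_fin,
            nsmul_eq_mul]
  have h2 := classes_typ hm hp hp2 ha
  rw [← hN] at h2
  -- m! * C(n,m) ≥ (n/2)^m
  have h3 : ((n:ℝ) / 2) ^ m ≤ (m.factorial : ℝ) * (n.choose m : ℝ) := by
    have e1 := Nat.pow_sub_le_descFactorial n m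
    rw [Nat.descFactorial_eq_factorial_mul_choose] at e1
    have e2 : ((n:ℝ) / 2) ≤ ((n + 1 - m : ℕ) : ℝ) := by
      rw [div_le_iff₀ (by norm_num)]
      have : n ≤ (n + 1 - m) * 2 := by omega
      exact_mod_cast this
    calc ((n:ℝ) / 2) ^ m ≤ ((n + 1 - m : ℕ) : ℝ) ^ m := pow_le_pow_left₀ (by positivity) e2 m
      _ ≤ _ := by exact_mod_cast e1
  have h4 : N ≤ (n.choose m : ℝ) * (1 / 2) := by
    have hf : (0:ℝ) < (m.factorial : ℝ) := by exact_mod_cast Nat.factorial_pos m
    have e1 : Real.exp ((m * (m - 1) / 2) * Real.binEntropy p + 2001 * m)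
        ≤ (1 / 2) * ((n:ℝ) / 2) ^ m := by
      have e2 : ((n:ℝ) / 2) ^ m = Real.exp (m * (Real.log n - Real.log 2)) := by
        rw [Real.exp_nat_mul, Real.exp_sub, Real.exp_log hn0, Real.exp_log (by norm_num)]
      have e3 : (1:ℝ) / 2 = Real.exp (-Real.log 2) := by
        rw [Real.exp_neg, Real.exp_log (by norm_num)]; norm_num
      rw [e2, e3, ← Real.exp_add]
      apply Real.exp_le_exp.2
      have hl2 : Real.log 2 ≤ 1 := by
        have := Real.log_two_lt_d9
        linarith
      have hb : 0 ≤ Real.binEntropy p := Real.binEntropy_nonneg hp.le hp1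
      have e4 : (m * (m - 1) / 2) * Real.binEntropy p ≤ m * ((m:ℝ) / 2 * Real.binEntropy p) := by
        have : 0 ≤ (m:ℝ) * Real.binEntropy p := by positivity
        nlinarith
      have e5 : (m:ℝ) * ((m:ℝ) / 2 * Real.binEntropy p) ≤ m * (Real.log n - 2004) :=
        mul_le_mul_of_nonneg_left (by linarith) hm0.le
      have e6 : (m:ℝ) * Real.log 2 ≤ m * 1 := mul_le_mul_of_nonneg_left hl2 hm0.le
      nlinarith
    have e7 : (m.factorial : ℝ) * N ≤ (m.factorial : ℝ) * ((n.choose m : ℝ) * (1 / 2)) := by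
      calc _ ≤ _ := h2
        _ ≤ _ := e1
        _ ≤ (1 / 2) * ((m.factorial : ℝ) * (n.choose m : ℝ)) :=
            mul_le_mul_of_nonneg_left h3 (by norm_num)
        _ = _ := by ring
    exact le_of_mul_le_mul_left e7 hf
  rw [div_le_iff₀ hC]
  linarith

end Pool.Agent.Q287.SR
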