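import Pool.Agent.Q287.SR.Defs

/-! Expectations under `ER(n,p)` and cylinder probabilities. -/

open Finset BigOperators
open scoped Classical

namespace Pool.Agent.Q287.SR

theorem mem_pairs_of_edge {n : ℕ} {G : SimpleGraph (Fin n)} {e : Sym2 (Fin n)}
    (h : e ∈ G.edgeSet) : e ∈ pairs n := by
  simp only [pairs, Finset.mem_filter, Finset.mem_univ, true_and]
  exact G.not_isDiag_of_mem_edgeSet h

theorem sum_graph_prod {n : ℕ} (a b : Sym2 (Fin n) → ℝ) :
    ∑ G : SimpleGraph (Fin n), ∏ e ∈ pairs n, (if e ∈ G.edgeSet then a e else b e)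
      = ∏ e ∈ pairs n, (a e + b e) := by
  rw [Finset.prod_add]
  refine Finset.sum_bij' (i := fun G _ => (pairs n).filter (fun e => e ∈ G.edgeSet))
    (j := fun T _ => SimpleGraph.fromEdgeSet (T : Set (Sym2 (Fin n)))) ?_ ?_ ?_ ?_ ?_
  · intro G _
    simp
  · intro T _
    simp
  · intro G _
    ext u v
    simp only [SimpleGraph.fromEdgeSet_adj, Finset.coe_filter, Set.mem_ofPred_eq,
      SimpleGraph.mem_edgeSet, ne_eq]
    constructor
    · rintro ⟨⟨_, h⟩, _⟩
      exact h
    · intro h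
      exact ⟨⟨mem_pairs_of_edge (G := G) h, h⟩, h.ne⟩
  · intro T hT
    ext e
    simp only [Finset.mem_filter]
    constructor
    · rintro ⟨_, h⟩
      rw [SimpleGraph.edgeSet_fromEdgeSet] at h
      exact_mod_cast h.1
    · intro h
      have h2 := Finset.mem_powerset.1 hT h
      refine ⟨h2, ?_⟩
      rw [SimpleGraph.edgeSet_fromEdgeSet]
      refine ⟨by exact_mod_cast h, ?_⟩
      simp only [pairs, Finset.mem_filter] at h2
      exact h2.2
  · intro G _
    rw [Finset.prod_ite]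
    congr 1
    refine Finset.prod_congr ?_ (fun _ _ => rfl)
    ext e
    simp only [Finset.mem_filter, Finset.mem_sdiff]
    tauto

/-- Expectation under `ER(n,p)`. -/
noncomputable def Ex (n : ℕ) (p : ℝ) (f : SimpleGraph (Fin n) → ℝ) : ℝ :=
  ∑ G : SimpleGraph (Fin n), erWeight n p G * f G

theorem erWeight_nonneg {n : ℕ} {p : ℝ} (h0 : 0 ≤ p) (h1 : p ≤ 1) (G : SimpleGraph (Fin n)) :
    0 ≤ erWeight n p G := by
  unfold erWeight
  apply Finset.prod_nonneg
  intro e _
  split_ifs
  · exact h0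
  · linarith

theorem Ex_one {n : ℕ} (p : ℝ) : Ex n p (fun _ => 1) = 1 := by
  unfold Ex
  simp only [mul_one]
  have := sum_graph_prod (n := n) (fun _ => p) (fun _ => 1 - p)
  unfold erWeight
  rw [this]
  simp

theorem Ex_const {n : ℕ} (p c : ℝ) : Ex n p (fun _ => c) = c := by
  have h := Ex_one (n := n) p
  unfold Ex at h ⊢
  simp only [mul_one] at h
  rw [← Finset.sum_mul, h, one_mul]

theorem Ex_add {n : ℕ} (p : ℝ) (f g : SimpleGraph (Fin n) → ℝ) :
    Ex n p (fun G => f G + g G) = Ex n p f + Ex n p g := by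
  unfold Ex
  rw [← Finset.sum_add_distrib]
  exact Finset.sum_congr rfl (fun G _ => by ring)

theorem Ex_mul {n : ℕ} (p c : ℝ) (f : SimpleGraph (Fin n) → ℝ) :
    Ex n p (fun G => c * f G) = c * Ex n p f := by
  unfold Ex
  rw [Finset.mul_sum]
  exact Finset.sum_congr rfl (fun G _ => by ring)

theorem Ex_sum {n : ℕ} (p : ℝ) {ι : Type*} (s : Finset ι) (f : ι → SimpleGraph (Fin n) → ℝ) :
    Ex n p (fun G => ∑ i ∈ s, f i G) = ∑ i ∈ s, Ex n p (f i) := by
  unfold Ex
  rw [Finset.sum_comm]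
  exact Finset.sum_congr rfl (fun G _ => by rw [Finset.mul_sum])

theorem Ex_mono {n : ℕ} {p : ℝ} (h0 : 0 ≤ p) (h1 : p ≤ 1) {f g : SimpleGraph (Fin n) → ℝ}
    (h : ∀ G, f G ≤ g G) : Ex n p f ≤ Ex n p g := by
  unfold Ex
  exact Finset.sum_le_sum (fun G _ => mul_le_mul_of_nonneg_left (h G) (erWeight_nonneg h0 h1 G))

theorem Ex_nonneg {n : ℕ} {p : ℝ} (h0 : 0 ≤ p) (h1 : p ≤ 1) {f : SimpleGraph (Fin n) → ℝ}
    (h : ∀ G, 0 ≤ f G) : 0 ≤ Ex n p f := by
  unfold Ex
  exact Finset.sum_nonneg (fun G _ => mul_nonneg (erWeight_nonneg h0 h1 G) (h G))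

/-- Indicator of the absence of all edges in `D`. -/
noncomputable def absent {n : ℕ} (D : Finset (Sym2 (Fin n))) (G : SimpleGraph (Fin n)) : ℝ :=
  if ∀ e ∈ D, e ∉ G.edgeSet then 1 else 0

theorem Ex_absent {n : ℕ} (p : ℝ) {D : Finset (Sym2 (Fin n))} (hD : D ⊆ pairs n) :
    Ex n p (absent D) = (1 - p) ^ D.card := by
  unfold Ex
  have h1 : ∀ G : SimpleGraph (Fin n), erWeight n p G * absent D G
      = ∏ e ∈ pairs n, (if e ∈ G.edgeSet then (if e ∈ D then 0 else p) else 1 - p) := by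
    intro G
    unfold absent
    split_ifs with h
    · rw [mul_one]
      unfold erWeight
      refine Finset.prod_congr rfl (fun e _ => ?_)
      split_ifs with h2 h3
      · exact absurd h2 (h e h3)
      · rfl
      · rfl
    · push Not at h
      obtain ⟨e, he, he2⟩ := h
      rw [mul_zero]
      symm
      apply Finset.prod_eq_zero (hD he)
      simp [he, he2]
  rw [Finset.sum_congr rfl (fun G _ => h1 G)]
  rw [sum_graph_prod (fun e => if e ∈ D then 0 else p) (fun _ => 1 - p)]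
  have h2 : ∀ e ∈ pairs n, ((if e ∈ D then 0 else p) + (1 - p)) = if e ∈ D then 1 - p else 1 := by
    intro e _
    split_ifs <;> ring
  rw [Finset.prod_congr rfl h2, Finset.prod_ite]
  simp only [Finset.prod_const, one_pow, mul_one]
  congr 2
  ext e
  simp only [Finset.mem_filter]
  exact ⟨fun h => h.2, fun h => ⟨hD h, h⟩⟩

/-- Indicator of the presence of all edges in `D`. -/
noncomputable def present {n : ℕ} (D : Finset (Sym2 (Fin n))) (G : SimpleGraph (Fin n)) : ℝ :=
  if ∀ e ∈ D, e ∈ G.edgeSet then 1 else 0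

theorem Ex_present {n : ℕ} (p : ℝ) {D : Finset (Sym2 (Fin n))} (hD : D ⊆ pairs n) :
    Ex n p (present D) = p ^ D.card := by
  unfold Ex
  have h1 : ∀ G : SimpleGraph (Fin n), erWeight n p G * present D G
      = ∏ e ∈ pairs n, (if e ∈ G.edgeSet then p else (if e ∈ D then 0 else 1 - p)) := by
    intro G
    unfold present
    split_ifs with h
    · rw [mul_one]
      unfold erWeight
      refine Finset.prod_congr rfl (fun e _ => ?_)
      split_ifs with h2 h3
      · rfl
      · exact absurd (h e h3) h2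
      · rfl
    · push Not at h
      obtain ⟨e, he, he2⟩ := h
      rw [mul_zero]
      symm
      apply Finset.prod_eq_zero (hD he)
      simp [he, he2]
  rw [Finset.sum_congr rfl (fun G _ => h1 G)]
  rw [sum_graph_prod (fun _ => p) (fun e => if e ∈ D then 0 else 1 - p)]
  have h2 : ∀ e ∈ pairs n, (p + (if e ∈ D then 0 else 1 - p)) = if e ∈ D then p else 1 := by
    intro e _
    split_ifs <;> ring
  rw [Finset.prod_congr rfl h2, Finset.prod_ite]
  simp only [Finset.prod_const, one_pow, mul_one]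
  congr 2
  ext e
  simp only [Finset.mem_filter]
  exact ⟨fun h => h.2, fun h => ⟨hD h, h⟩⟩

/-- Paley–Zygmund / Cauchy–Schwarz: `P(X > 0) ≥ (E X)² / E X²`. -/
theorem Ex_sq_le {n : ℕ} {p : ℝ} (h0 : 0 ≤ p) (h1 : p ≤ 1) (X : SimpleGraph (Fin n) → ℝ) :
    (Ex n p X) ^ 2 ≤ Ex n p (fun G => X G ^ 2) * Ex n p (fun G => if X G ≠ 0 then 1 else 0) := by
  unfold Ex
  have h := Finset.sum_mul_sq_le_sq_mul_sq (Finset.univ : Finset (SimpleGraph (Fin n)))
    (fun G => Real.sqrt (erWeight n p G) * X G)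
    (fun G => Real.sqrt (erWeight n p G) * (if X G ≠ 0 then 1 else 0))
  have e1 : ∀ G : SimpleGraph (Fin n), (Real.sqrt (erWeight n p G) * X G) *
      (Real.sqrt (erWeight n p G) * (if X G ≠ 0 then 1 else 0)) = erWeight n p G * X G := by
    intro G
    have := Real.mul_self_sqrt (erWeight_nonneg h0 h1 G)
    by_cases hX : X G = 0
    · simp [hX]
    · simp only [ne_eq, hX, not_false_eq_true, if_true, mul_one]
      calc _ = (Real.sqrt (erWeight n p G) * Real.sqrt (erWeight n p G)) * X G := by ring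
        _ = _ := by rw [this]
  have e2 : ∀ G : SimpleGraph (Fin n), (Real.sqrt (erWeight n p G) * X G) ^ 2
      = erWeight n p G * X G ^ 2 := by
    intro G
    rw [mul_pow, Real.sq_sqrt (erWeight_nonneg h0 h1 G)]
  have e3 : ∀ G : SimpleGraph (Fin n),
      (Real.sqrt (erWeight n p G) * (if X G ≠ 0 then (1:ℝ) else 0)) ^ 2
      = erWeight n p G * (if X G ≠ 0 then 1 else 0) := by
    intro G
    rw [mul_pow, Real.sq_sqrt (erWeight_nonneg h0 h1 G)]
    split_ifs <;> ring
  rw [Finset.sum_congr rfl (fun G _ => e1 G), Finset.sum_congr rfl (fun G _ => e2 G),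
    Finset.sum_congr rfl (fun G _ => e3 G)] at h
  exact h

end Pool.Agent.Q287.SR
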