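import Mathlib

/-!
# Erdős–Rényi subgraph pairs and exact set recovery

Definitions for the problem on the exact set recovery threshold for Erdős–Rényi subgraph pairs.
-/

open Finset BigOperators
open scoped Classical

namespace Pool.Agent.Q287.SR

/-- The set of the `n choose 2` possible edges on the vertex set `[n] = Fin n`:
the unordered pairs of distinct vertices. -/
noncomputable def pairs (n : ℕ) : Finset (Sym2 (Fin n)) :=
  Finset.univ.filter (fun e => ¬ e.IsDiag)

/-- The probability that `ER(n,p)` equals the graph `G`: each possible edge is present with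
probability `p` and absent with probability `1 - p`, independently. -/
noncomputable def erWeight (n : ℕ) (p : ℝ) (G : SimpleGraph (Fin n)) : ℝ :=
  ∏ e ∈ pairs n, if e ∈ G.edgeSet then p else 1 - p

/-- A (possibly randomised) algorithm: given the graph `G` on `[n]` and the graph `H` on `[m]`
it outputs a random `m`-element subset of `[n]`; `prob G H T` is the probability that the
output is `T`. -/
structure Estimator (n m : ℕ) where
  /-- `prob G H T` is the probability of the output `T` on the input `(G, H)`. -/
  prob : SimpleGraph (Fin n) → SimpleGraph (Fin m) → Finset (Fin n) → ℝ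
  nonneg : ∀ G H T, 0 ≤ prob G H T
  sum_one : ∀ G H, ∑ T ∈ powersetCard m (univ : Finset (Fin n)), prob G H T = 1

/-- The graph `H_π` on `[m]`: the induced subgraph `G[S]` relabelled through the bijection
`π : S → [m]`, i.e. `i ~ j` in `H_π` iff `π⁻¹ i ~ π⁻¹ j` in `G`. -/
def relabel {n m : ℕ} (G : SimpleGraph (Fin n)) (S : Finset (Fin n)) (π : {x // x ∈ S} ≃ Fin m) :
    SimpleGraph (Fin m) :=
  G.comap (fun i => ((π.symm i : {x // x ∈ S}) : Fin n))

/-- The success probability `Pr(Ŝ = S)` of an estimator: `G ~ ER(n,p)`, `S` is a uniformly random
`m`-element subset of `[n]` independent of `G`, `π : S → [m]` is a uniformly random bijection,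
and the estimator is run on `(G, H_π)`. -/
noncomputable def success (n m : ℕ) (p : ℝ) (A : Estimator n m) : ℝ :=
  ∑ G : SimpleGraph (Fin n), erWeight n p G *
    ((∑ S ∈ powersetCard m (univ : Finset (Fin n)),
      (∑ π : {x // x ∈ S} ≃ Fin m, A.prob G (relabel G S π) S) / (m.factorial : ℝ))
      / (n.choose m : ℝ))

end Pool.Agent.Q287.SR
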