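import Pool.Agent.Q287.SR.CaseB

/-! Assembly. -/

open Finset BigOperators Filter Topology
open scoped Classical

namespace Pool.Agent.Q287.SR

theorem pow_lower {m : ℕ} {p : ℝ} (hp : 0 ≤ p) (hp2 : p ≤ 1 / 2) :
    Real.exp (-(m * p) - 2 * (m * p ^ 2)) ≤ (1 - p) ^ m := by
  have hq : 0 < 1 - p := by linarith
  have h1 : -(p) - 2 * p ^ 2 ≤ Real.log (1 - p) := by
    have h := Real.one_sub_inv_le_log_of_pos hq
    have h2 : 1 - (1 - p)⁻¹ = -p / (1 - p) := by
      field_simp; ring
    rw [h2] at h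
    refine le_trans ?_ h
    rw [le_div_iff₀ hq]
    nlinarith [mul_nonneg hp hp, mul_nonneg (mul_nonneg hp hp) (by linarith : 0 ≤ 1 - 2 * p)]
  calc Real.exp (-(m * p) - 2 * (m * p ^ 2)) = Real.exp (m * (-(p) - 2 * p ^ 2)) := by
        congr 1; ring
    _ ≤ Real.exp (m * Real.log (1 - p)) := by
        apply Real.exp_le_exp.2
        exact mul_le_mul_of_nonneg_left h1 (Nat.cast_nonneg _)
    _ = (1 - p) ^ m := by
        rw [Real.exp_nat_mul, Real.exp_log hq]

theorem mp_le {n m : ℕ} {p : ℝ} (hn : 1048577 ≤ n) (hmn : n < 2 * m) (hmn2 : m ≤ n) (hp : 0 < p)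
    (hp2 : p ≤ 1 / 2) (hcond : (m:ℝ) / 2 * Real.binEntropy p ≤ Real.log n) :
    (m:ℝ) * p ≤ 9 := by
  have hn0 : (1048577:ℝ) ≤ n := by exact_mod_cast hn
  have hnpos : (0:ℝ) < n := by linarith
  have hm0 : (n:ℝ) / 2 ≤ m := by
    have : (n:ℝ) < 2 * m := by exact_mod_cast hmn
    linarith
  have hmn' : (m:ℝ) ≤ n := by exact_mod_cast hmn2
  have hlogp : Real.log p ≤ 0 := Real.log_nonpos hp.le (by linarith)
  have hent : p * (-Real.log p) ≤ Real.binEntropy p := by
    rw [binEnt]
    have : Real.log (1 - p) ≤ 0 := Real.log_nonpos (by linarith) (by linarith)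
    have h2 : 0 ≤ (1 - p) * (-Real.log (1 - p)) := mul_nonneg (by linarith) (by linarith)
    linarith
  have hx0 : 0 ≤ p * (-Real.log p) := mul_nonneg hp.le (by linarith)
  have h1 : (n:ℝ) / 4 * (p * (-Real.log p)) ≤ Real.log n := by
    calc (n:ℝ) / 4 * (p * (-Real.log p)) ≤ (m:ℝ) / 2 * (p * (-Real.log p)) :=
          mul_le_mul_of_nonneg_right (by linarith) hx0
      _ ≤ (m:ℝ) / 2 * Real.binEntropy p :=
          mul_le_mul_of_nonneg_left hent (by linarith)
      _ ≤ _ := hcond
  by_contra hcon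
  push Not at hcon
  have hnp : 9 < n * p := lt_of_lt_of_le hcon (mul_le_mul_of_nonneg_right hmn' hp.le)
  have hlogn : 0 < Real.log n := Real.log_pos (by linarith)
  set R := Real.sqrt n with hR
  have hR2 : R * R = n := Real.mul_self_sqrt hnpos.le
  have hR0 : 0 < R := Real.sqrt_pos.2 hnpos
  by_cases hc : p * R ≤ 1
  · have h2 : Real.log p ≤ -(Real.log n / 2) := by
      have h3 : p ≤ R⁻¹ := by
        rw [le_inv_comm₀ hp hR0, ← one_div, le_div_iff₀ hp, mul_comm]
        exact hc
      have h4 : Real.log p ≤ Real.log R⁻¹ := Real.log_le_log hp h3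
      rw [Real.log_inv, hR, Real.log_sqrt hnpos.le] at h4
      linarith
    have h5 : (n:ℝ) / 4 * (p * (Real.log n / 2)) ≤ (n:ℝ) / 4 * (p * (-Real.log p)) := by
      apply mul_le_mul_of_nonneg_left _ (by positivity)
      apply mul_le_mul_of_nonneg_left _ hp.le
      linarith
    have h6 : (n:ℝ) / 4 * (p * (Real.log n / 2)) = (n * p) / 8 * Real.log n := by ring
    nlinarith
  · push Not at hc
    have h2 : (1:ℝ) / 2 ≤ -Real.log p := by
      have h3 : Real.log p ≤ Real.log (1 / 2) := Real.log_le_log hp hp2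
      rw [one_div, Real.log_inv] at h3
      have := Real.log_two_gt_d9
      linarith
    have h5 : R / 8 ≤ Real.log n := by
      calc R / 8 ≤ (n:ℝ) / 4 * (p * (1 / 2)) := by
            rw [← hR2]
            nlinarith
        _ ≤ (n:ℝ) / 4 * (p * (-Real.log p)) := by
            apply mul_le_mul_of_nonneg_left _ (by positivity)
            exact mul_le_mul_of_nonneg_left h2 hp.le
        _ ≤ _ := h1
    have h6 : (Real.log n) ^ 2 ≤ 16 * R := by
      rcases log_le_four hnpos with h | h
      · exact h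
      · linarith
    have h7 : R ^ 2 / 64 ≤ 16 * R := by
      have : (R / 8) ^ 2 ≤ (Real.log n) ^ 2 := pow_le_pow_left₀ (by positivity) h5 2
      have e : (R / 8) ^ 2 = R ^ 2 / 64 := by ring
      linarith
    have h8 : R ≤ 1024 := by
      by_contra h9
      push Not at h9
      nlinarith
    nlinarith

theorem half {n m : ℕ} {p : ℝ} (hn : 1048577 ≤ n) (hm : 1 ≤ m) (hmn : m ≤ n - 1) (hp : 0 < p)
    (hp2 : p ≤ 1 / 2) (hcond : (m:ℝ) / 2 * Real.binEntropy p - Real.log n ≤ -2004)
    (A : Estimator n m) :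
    success n m p A ≤ 1 - (1 / 2) * ((Real.exp (-18)) ^ 2 /
      ((1 + 2 * Real.exp (-18)) * (1 + Real.exp (-18)))) := by
  have hm1 : (1:ℝ) ≤ m := by exact_mod_cast hm
  have hm0 : (0:ℝ) < m := by linarith
  set c := Real.exp (-18) with hc
  have hc0 : 0 < c := Real.exp_pos _
  have hc1 : c ≤ 1 / 2 := by
    have h1 : c ≤ Real.exp (-1) := Real.exp_le_exp.2 (by norm_num)
    have h2 : Real.exp (-1) ≤ 1 / 2 := by
      rw [Real.exp_neg, inv_le_comm₀ (Real.exp_pos _) (by norm_num)]
      have := Real.exp_one_gt_d9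
      norm_num
      linarith
    linarith
  have hL0 : 0 ≤ Real.log m := Real.log_nonneg hm1
  by_cases hlm : Real.log m ≤ m * p
  · -- case B
    have h2mn : 2 * m ≤ n := by
      by_contra h
      push Not at h
      have h1 := mp_le hn h (by omega) hp hp2 (by linarith)
      have h2 : Real.log m ≤ 9 := hlm.trans h1
      have h3 : (m:ℝ) ≤ Real.exp 9 := by
        rw [← Real.exp_log hm0]
        exact Real.exp_le_exp.2 h2
      have h4 : Real.exp 9 ≤ 3 ^ 9 := by
        have h5 : Real.exp 1 ≤ 3 := by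
          have := Real.exp_one_lt_d9
          linarith
        calc Real.exp 9 = (Real.exp 1) ^ 9 := by rw [← Real.exp_nat_mul]; norm_num
          _ ≤ 3 ^ 9 := pow_le_pow_left₀ (Real.exp_pos _).le h5 9
      have h6 : (n:ℝ) < 2 * m := by exact_mod_cast h
      have h7 : (1048577:ℝ) ≤ n := by exact_mod_cast hn
      norm_num at h4
      linarith
    refine (success_le_caseB hm h2mn hp hp2 hlm hcond A).trans ?_
    have : c ^ 2 / ((1 + 2 * c) * (1 + c)) ≤ 1 / 4 := by
      rw [div_le_iff₀ (by positivity)]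
      nlinarith
    linarith
  · push Not at hlm
    have hLsq : (Real.log m) ^ 2 ≤ 4 * m := by
      have h1 : Real.log m = 2 * Real.log (Real.sqrt m) := by
        rw [Real.log_sqrt hm0.le]; ring
      have hs : 0 < Real.sqrt m := Real.sqrt_pos.2 hm0
      have h2 : Real.log (Real.sqrt m) ≤ Real.sqrt m := by
        have := Real.log_le_sub_one_of_pos hs
        linarith
      have h3 : Real.log m ≤ 2 * Real.sqrt m := by linarith
      calc (Real.log m) ^ 2 ≤ (2 * Real.sqrt m) ^ 2 := pow_le_pow_left₀ hL0 h3 2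
        _ = 4 * m := by rw [mul_pow, Real.sq_sqrt hm0.le]; norm_num
    have hsq : m * p ^ 2 ≤ 4 := by
      have h1 : (m * p) ^ 2 ≤ (Real.log m) ^ 2 := pow_le_pow_left₀ (by positivity) hlm.le 2
      have h2 : m * (m * p ^ 2) ≤ m * 4 := by nlinarith
      exact le_of_mul_le_mul_left h2 hm0
    have hpow := pow_lower (m := m) hp.le hp2
    have hq0 : 0 < 1 - p := by linarith
    have h8 : Real.exp (-8) ≤ m * (1 - p) ^ m := by
      have h1 : Real.exp (-(Real.log m) - 8) ≤ (1 - p) ^ m := by
        refine le_trans (Real.exp_le_exp.2 ?_) hpow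
        linarith
      rw [Real.exp_sub, Real.exp_neg, Real.exp_log hm0] at h1
      have h2 : (m:ℝ) * ((m:ℝ)⁻¹ / Real.exp 8) ≤ m * (1 - p) ^ m :=
        mul_le_mul_of_nonneg_left h1 hm0.le
      have h3 : (m:ℝ) * ((m:ℝ)⁻¹ / Real.exp 8) = Real.exp (-8) := by
        rw [Real.exp_neg]; field_simp
      linarith
    have hc8 : c ≤ Real.exp (-8) := Real.exp_le_exp.2 (by norm_num)
    have ha : c ≤ m * (1 - p) ^ (m - 1) := by
      have h1 : (1 - p) ^ m ≤ (1 - p) ^ (m - 1) :=
        pow_le_pow_of_le_one hq0.le (by linarith) (by omega)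
      have h2 : (m:ℝ) * (1 - p) ^ m ≤ m * (1 - p) ^ (m - 1) := mul_le_mul_of_nonneg_left h1 hm0.le
      linarith
    have hb : c ≤ ((n - m : ℕ) : ℝ) * (1 - p) ^ m := by
      by_cases h2mn : 2 * m ≤ n
      · have h1 : (m:ℝ) ≤ ((n - m : ℕ) : ℝ) := by
          have : m ≤ n - m := by omega
          exact_mod_cast this
        have h2 : (m:ℝ) * (1 - p) ^ m ≤ ((n - m : ℕ) : ℝ) * (1 - p) ^ m :=
          mul_le_mul_of_nonneg_right h1 (by positivity)
        linarith
      · push Not at h2mn
        have h1 := mp_le hn h2mn (by omega) hp hp2 (by linarith)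
        have h2 : (1:ℝ) ≤ ((n - m : ℕ) : ℝ) := by
          have : 1 ≤ n - m := by omega
          exact_mod_cast this
        have h3 : c ≤ (1 - p) ^ m := by
          refine le_trans (Real.exp_le_exp.2 ?_) hpow
          have : m * p ^ 2 ≤ m * p * (1 / 2) := by
            rw [pow_two, ← mul_assoc]
            exact mul_le_mul_of_nonneg_left hp2 (by positivity)
          linarith
        have h4 : 1 * (1 - p) ^ m ≤ ((n - m : ℕ) : ℝ) * (1 - p) ^ m :=
          mul_le_mul_of_nonneg_right h2 (by positivity)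
        linarith
    exact success_le_caseA hp.le hp2 hc0 (by omega) ha hb A

/-- The complemented estimator. -/
noncomputable def Estimator.compl {n m : ℕ} (A : Estimator n m) : Estimator n m where
  prob G H T := A.prob Gᶜ Hᶜ T
  nonneg _ _ _ := A.nonneg _ _ _
  sum_one _ _ := A.sum_one _ _

theorem relabel_compl {n m : ℕ} (G : SimpleGraph (Fin n)) (S : Finset (Fin n))
    (π : {x // x ∈ S} ≃ Fin m) : (relabel Gᶜ S π)ᶜ = relabel G S π := by
  ext u v
  unfold relabel
  simp only [SimpleGraph.compl_adj, SimpleGraph.comap_adj]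
  have hinj : ∀ u v : Fin m, ((π.symm u : {x // x ∈ S}) : Fin n) = ((π.symm v : {x // x ∈ S}) : Fin n)
      → u = v := by
    intro u v h
    exact π.symm.injective (Subtype.ext h)
  constructor
  · rintro ⟨h1, h2⟩
    by_contra h3
    apply h2
    exact ⟨fun h => h1 (hinj u v h), h3⟩
  · intro h
    refine ⟨?_, ?_⟩
    · rintro rfl
      exact h.ne rfl
    · rintro ⟨_, h2⟩
      exact h2 h

theorem erWeight_compl {n : ℕ} (p : ℝ) (G : SimpleGraph (Fin n)) :
    erWeight n (1 - p) Gᶜ = erWeight n p G := by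
  unfold erWeight
  refine Finset.prod_congr rfl (fun e he => ?_)
  simp only [pairs, Finset.mem_filter, Finset.mem_univ, true_and] at he
  induction e with
  | _ u v =>
    rw [Sym2.mk_isDiag_iff] at he
    simp only [SimpleGraph.mem_edgeSet, SimpleGraph.compl_adj]
    by_cases h : G.Adj u v
    · simp [h]
    · simp [h, he]

theorem success_compl {n m : ℕ} (p : ℝ) (A : Estimator n m) :
    success n m (1 - p) A.compl = success n m p A := by
  unfold success
  have e : (SimpleGraph (Fin n)) ≃ (SimpleGraph (Fin n)) :=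
    Function.Involutive.toPerm compl compl_involutive
  rw [← Equiv.sum_comp (Function.Involutive.toPerm (compl : SimpleGraph (Fin n) → _)
    compl_involutive)]
  refine Finset.sum_congr rfl (fun G _ => ?_)
  show erWeight n (1 - p) Gᶜ * _ = _
  rw [erWeight_compl]
  congr 1
  congr 1
  refine Finset.sum_congr rfl (fun S _ => ?_)
  congr 1
  refine Finset.sum_congr rfl (fun π _ => ?_)
  show A.prob Gᶜᶜ (relabel Gᶜ S π)ᶜ S = _
  rw [compl_compl, relabel_compl]

theorem full {n m : ℕ} {p : ℝ} (hn : 1048577 ≤ n) (hm : 1 ≤ m) (hmn : m ≤ n - 1) (hp : 0 < p)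
    (hp1 : p < 1) (hcond : (m:ℝ) / 2 * Real.binEntropy p - Real.log n ≤ -2004)
    (A : Estimator n m) :
    success n m p A ≤ 1 - (1 / 2) * ((Real.exp (-18)) ^ 2 /
      ((1 + 2 * Real.exp (-18)) * (1 + Real.exp (-18)))) := by
  by_cases hp2 : p ≤ 1 / 2
  · exact half hn hm hmn hp hp2 hcond A
  · push Not at hp2
    rw [← success_compl]
    apply half hn hm hmn (by linarith) (by linarith)
    rw [Real.binEntropy_one_sub]
    exact hcond

end Pool.Agent.Q287.SR
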