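import Pool.Agent.Q287.SR.CaseA

/-! Counting graphs invariant under a permutation, and the Burnside bound. -/

open Finset BigOperators
open scoped Classical

namespace Pool.Agent.Q287.SR

theorem pow_add_sq_le {a b : ℝ} (ha : 0 ≤ a) (hb : 0 ≤ b) (c : ℕ) (hc : 2 ≤ c) :
    (a ^ c + b ^ c) ^ 2 ≤ (a ^ 2 + b ^ 2) ^ c := by
  induction c, hc using Nat.le_induction with
  | base => exact le_refl _
  | succ c hc ih =>
    have hx : 0 ≤ a ^ c := by positivity
    have hy : 0 ≤ b ^ c := by positivity
    have h1 : (a ^ (c + 1) + b ^ (c + 1)) ^ 2 ≤ (a ^ c + b ^ c) ^ 2 * (a ^ 2 + b ^ 2) := by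
      rw [pow_succ a c, pow_succ b c]
      nlinarith [sq_nonneg (a ^ c * b - b ^ c * a), mul_nonneg hx hy, mul_nonneg (mul_nonneg hx hy)
        (sq_nonneg a), mul_nonneg (mul_nonneg hx hy) (sq_nonneg b)]
    calc _ ≤ (a ^ c + b ^ c) ^ 2 * (a ^ 2 + b ^ 2) := h1
      _ ≤ (a ^ 2 + b ^ 2) ^ c * (a ^ 2 + b ^ 2) :=
          mul_le_mul_of_nonneg_right ih (by positivity)
      _ = _ := (pow_succ _ _).symm

theorem inv_sum_sq_le {E : Type*} [Fintype E] [DecidableEq E] (τ : Equiv.Perm E) {a b : ℝ}
    (ha : 0 ≤ a) (hb : 0 ≤ b) :
    (∑ x : E → Bool, if (∀ e, x (τ e) = x e) then (∏ e, (if x e then a else b)) else 0) ^ 2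
      ≤ ∏ e, (if τ e = e then (a + b) ^ 2 else a ^ 2 + b ^ 2) := by
  let st : Setoid E := Equiv.Perm.SameCycle.setoid τ
  let Q := Quotient st
  let pr : E → Q := Quotient.mk st
  have hprτ : ∀ e, pr (τ e) = pr e := by
    intro e
    apply Quotient.sound
    show Equiv.Perm.SameCycle τ (τ e) e
    exact ⟨-1, by simp⟩
  -- sum over invariant functions is at most the sum over functions on the quotient
  have h1 : (∑ x : E → Bool, if (∀ e, x (τ e) = x e) then (∏ e, (if x e then a else b)) else 0)
      ≤ ∑ y : Q → Bool, ∏ e, (if y (pr e) then a else b) := by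
    rw [← Finset.sum_filter]
    have hinv : ∀ x : E → Bool, (∀ e, x (τ e) = x e) → ∀ e e', pr e = pr e' → x e = x e' := by
      intro x hx e e' h
      have h2 : Equiv.Perm.SameCycle τ e e' := Quotient.exact h
      obtain ⟨i, hi⟩ := h2
      rw [← hi]
      have hz : ∀ (i : ℤ) (e : E), x ((τ ^ i) e) = x e := by
        intro i
        induction i using Int.induction_on with
        | zero => intro e; simp
        | succ k ih =>
          intro e
          rw [zpow_add_one, Equiv.Perm.mul_apply, ih, hx]
        | pred k ih =>
          intro e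
          rw [zpow_sub_one, Equiv.Perm.mul_apply, ih]
          have := hx (τ⁻¹ e)
          rw [← this]
          simp
      exact (hz i e).symm
    let F : (E → Bool) → (Q → Bool) := fun x q => x (Quotient.out q)
    have hF : ∀ x : E → Bool, (∀ e, x (τ e) = x e) → ∀ e, F x (pr e) = x e := by
      intro x hx e
      apply hinv x hx
      show Quotient.mk st (Quotient.out (Quotient.mk st e)) = Quotient.mk st e
      exact Quotient.out_eq _
    have hinj : Set.InjOn F ((univ : Finset (E → Bool)).filter (fun x => ∀ e, x (τ e) = x e)) := by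
      intro x hx x' hx' h
      simp only [Finset.coe_filter, Finset.mem_univ, true_and, Set.mem_ofPred_eq] at hx hx'
      funext e
      rw [← hF x hx e, ← hF x' hx' e, h]
    calc ∑ x ∈ (univ : Finset (E → Bool)).filter (fun x => ∀ e, x (τ e) = x e),
          (∏ e, (if x e then a else b))
        = ∑ x ∈ (univ : Finset (E → Bool)).filter (fun x => ∀ e, x (τ e) = x e),
          (∏ e, (if F x (pr e) then a else b)) := by
          refine Finset.sum_congr rfl (fun x hx => ?_)
          rw [Finset.mem_filter] at hx
          refine Finset.prod_congr rfl (fun e _ => ?_)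
          rw [hF x hx.2 e]
      _ = ∑ y ∈ ((univ : Finset (E → Bool)).filter (fun x => ∀ e, x (τ e) = x e)).image F,
          (∏ e, (if y (pr e) then a else b)) := by
          rw [Finset.sum_image hinj]
      _ ≤ _ := by
          apply Finset.sum_le_sum_of_subset_of_nonneg (Finset.subset_univ _)
          intro y _ _
          apply Finset.prod_nonneg
          intro e _
          split_ifs <;> assumption
  have h2 : ∀ y : Q → Bool, (∏ e, (if y (pr e) then a else b))
      = ∏ o : Q, (if y o then a ^ ((univ : Finset E).filter (fun e => pr e = o)).card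
          else b ^ ((univ : Finset E).filter (fun e => pr e = o)).card) := by
    intro y
    rw [← Finset.prod_fiberwise (univ : Finset E) pr]
    refine Finset.prod_congr rfl (fun o _ => ?_)
    have : ∀ e ∈ (univ : Finset E).filter (fun e => pr e = o),
        (if y (pr e) then a else b) = (if y o then a else b) := by
      intro e he
      rw [Finset.mem_filter] at he
      rw [he.2]
    rw [Finset.prod_congr rfl this, Finset.prod_const]
    split_ifs <;> rfl
  have h3 : (∑ y : Q → Bool, ∏ e, (if y (pr e) then a else b))
      = ∏ o : Q, (a ^ ((univ : Finset E).filter (fun e => pr e = o)).card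
          + b ^ ((univ : Finset E).filter (fun e => pr e = o)).card) := by
    rw [Finset.sum_congr rfl (fun y _ => h2 y)]
    have := Finset.prod_univ_sum (fun (_ : Q) => (univ : Finset Bool))
      (fun (o : Q) (t : Bool) => (if t then a ^ ((univ : Finset E).filter (fun e => pr e = o)).card
          else b ^ ((univ : Finset E).filter (fun e => pr e = o)).card))
    rw [Fintype.piFinset_univ] at this
    rw [← this]
    refine Finset.prod_congr rfl (fun o _ => ?_)
    simp
  have hW0 : 0 ≤ (∑ x : E → Bool, if (∀ e, x (τ e) = x e) then (∏ e, (if x e then a else b))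
      else 0) := by
    apply Finset.sum_nonneg
    intro x _
    split_ifs
    · apply Finset.prod_nonneg
      intro e _
      split_ifs <;> assumption
    · exact le_refl _
  rw [h3] at h1
  calc _ ≤ (∏ o : Q, (a ^ ((univ : Finset E).filter (fun e => pr e = o)).card
          + b ^ ((univ : Finset E).filter (fun e => pr e = o)).card)) ^ 2 :=
        pow_le_pow_left₀ hW0 h1 2
    _ = ∏ o : Q, (a ^ ((univ : Finset E).filter (fun e => pr e = o)).card
          + b ^ ((univ : Finset E).filter (fun e => pr e = o)).card) ^ 2 := by
        rw [Finset.prod_pow]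
    _ ≤ ∏ o : Q, ∏ e ∈ (univ : Finset E).filter (fun e => pr e = o),
          (if τ e = e then (a + b) ^ 2 else a ^ 2 + b ^ 2) := by
        apply Finset.prod_le_prod
        · intro o _
          positivity
        · intro o _
          obtain ⟨e0, he0⟩ : ∃ e, pr e = o := Quotient.exists_rep o
          by_cases hfix : τ e0 = e0
          · have hf : (univ : Finset E).filter (fun e => pr e = o) = {e0} := by
              ext e
              simp only [Finset.mem_filter, Finset.mem_univ, true_and, Finset.mem_singleton]
              constructor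
              · intro h
                have h2 : Equiv.Perm.SameCycle τ e0 e := Quotient.exact (he0.trans h.symm)
                obtain ⟨i, hi⟩ := h2
                rw [Equiv.Perm.zpow_apply_eq_self_of_apply_eq_self hfix] at hi
                exact hi.symm
              · intro h
                rw [h]; exact he0
            rw [hf]
            simp [hfix]
          · have hall : ∀ e ∈ (univ : Finset E).filter (fun e => pr e = o),
                (if τ e = e then (a + b) ^ 2 else a ^ 2 + b ^ 2) = a ^ 2 + b ^ 2 := by
              intro e he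
              rw [Finset.mem_filter] at he
              rw [if_neg]
              intro hfe
              apply hfix
              have h2 : Equiv.Perm.SameCycle τ e e0 := Quotient.exact (he.2.trans he0.symm)
              obtain ⟨i, hi⟩ := h2
              rw [Equiv.Perm.zpow_apply_eq_self_of_apply_eq_self hfe] at hi
              rw [← hi]
              exact hfe
            rw [Finset.prod_congr rfl hall, Finset.prod_const]
            apply pow_add_sq_le ha hb
            have hsub : ({e0, τ e0} : Finset E) ⊆ (univ : Finset E).filter (fun e => pr e = o) := by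
              intro e he
              rw [Finset.mem_insert, Finset.mem_singleton] at he
              simp only [Finset.mem_filter, Finset.mem_univ, true_and]
              rcases he with rfl | rfl
              · exact he0
              · rw [hprτ]; exact he0
            calc 2 = ({e0, τ e0} : Finset E).card := by
                  rw [Finset.card_pair (Ne.symm hfix)]
              _ ≤ _ := Finset.card_le_card hsub
    _ = _ := by
        rw [Finset.prod_fiberwise]

/-- The type of possible edges. -/
abbrev Ed (m : ℕ) := {e : Sym2 (Fin m) // ¬ e.IsDiag}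

/-- The permutation of the possible edges induced by a permutation of the vertices. -/
noncomputable def edPerm {m : ℕ} (σ : Equiv.Perm (Fin m)) : Equiv.Perm (Ed m) where
  toFun e := ⟨Sym2.map σ e.1, by
    rw [Sym2.isDiag_map σ.injective]; exact e.2⟩
  invFun e := ⟨Sym2.map σ.symm e.1, by
    rw [Sym2.isDiag_map σ.symm.injective]; exact e.2⟩
  left_inv e := by
    apply Subtype.ext
    simp [Sym2.map_map]
  right_inv e := by
    apply Subtype.ext
    simp [Sym2.map_map]

/-- weight of a graph on `[m]` -/
noncomputable def wt {m : ℕ} (a b : ℝ) (K : SimpleGraph (Fin m)) : ℝ :=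
  ∏ e : Ed m, (if e.1 ∈ K.edgeSet then a else b)

theorem smul_mem_edgeSet {m : ℕ} (σ : Equiv.Perm (Fin m)) (K : SimpleGraph (Fin m))
    (e : Sym2 (Fin m)) : Sym2.map σ e ∈ (σ • K).edgeSet ↔ e ∈ K.edgeSet := by
  induction e with
  | _ u v =>
    simp only [Sym2.map_mk, SimpleGraph.mem_edgeSet]
    rw [smul_adj]
    simp

theorem inv_wt_sq_le {m : ℕ} (σ : Equiv.Perm (Fin m)) {a b : ℝ} (ha : 0 ≤ a) (hb : 0 ≤ b) :
    (∑ K : SimpleGraph (Fin m), if σ • K = K then wt a b K else 0) ^ 2
      ≤ ∏ e : Ed m, (if edPerm σ e = e then (a + b) ^ 2 else a ^ 2 + b ^ 2) := by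
  refine le_trans ?_ (inv_sum_sq_le (edPerm σ) ha hb)
  apply pow_le_pow_left₀
  · apply Finset.sum_nonneg
    intro K _
    split_ifs
    · apply Finset.prod_nonneg
      intro e _
      split_ifs <;> assumption
    · exact le_refl _
  rw [← Finset.sum_filter, ← Finset.sum_filter]
  let F : SimpleGraph (Fin m) → (Ed m → Bool) := fun K e => decide (e.1 ∈ K.edgeSet)
  have hinj : Function.Injective F := by
    intro K L h
    ext u v
    by_cases huv : u = v
    · subst huv
      simp
    · have := congrFun h ⟨s(u, v), by rw [Sym2.mk_isDiag_iff]; exact huv⟩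
      simp only [F, decide_eq_decide, SimpleGraph.mem_edgeSet] at this
      exact this
  have h1 : ∑ K ∈ (univ : Finset (SimpleGraph (Fin m))).filter (fun K => σ • K = K), wt a b K
      = ∑ x ∈ ((univ : Finset (SimpleGraph (Fin m))).filter (fun K => σ • K = K)).image F,
        ∏ e, (if x e then a else b) := by
    rw [Finset.sum_image (fun _ _ _ _ h => hinj h)]
    refine Finset.sum_congr rfl (fun K _ => ?_)
    unfold wt
    refine Finset.prod_congr rfl (fun e _ => ?_)
    simp [F]
  rw [h1]
  apply Finset.sum_le_sum_of_subset_of_nonneg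
  · intro x hx
    obtain ⟨K, hK, rfl⟩ := Finset.mem_image.1 hx
    rw [Finset.mem_filter] at hK ⊢
    refine ⟨Finset.mem_univ _, fun e => ?_⟩
    simp only [F, decide_eq_decide]
    show Sym2.map σ e.1 ∈ K.edgeSet ↔ _
    conv_lhs => rw [← hK.2]
    exact smul_mem_edgeSet σ K e.1
  · intro x _ _
    apply Finset.prod_nonneg
    intro e _
    split_ifs <;> assumption

theorem card_Ed (m : ℕ) : Fintype.card (Ed m) = m.choose 2 := by
  have := Sym2.card_subtype_not_diag (α := Fin m)
  rw [Fintype.card_fin] at this
  rw [← this]

theorem fixed_card_le {m : ℕ} (σ : Equiv.Perm (Fin m)) :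
    ((univ : Finset (Ed m)).filter (fun e => edPerm σ e = e)).card
      ≤ (m - σ.support.card).choose 2 + σ.support.card := by
  have h1 : (((univ : Finset (Ed m)).filter (fun e => edPerm σ e = e)).map
      (Function.Embedding.subtype _)) ⊆ ((σ.support)ᶜ.offDiag.image Sym2.mk.uncurry) ∪
        (σ.support.image (fun i => s(i, σ i))) := by
    intro e he
    obtain ⟨⟨e', hd⟩, he', rfl⟩ := Finset.mem_map.1 he
    rw [Finset.mem_filter] at he'
    have h2 : Sym2.map σ e' = e' := congrArg Subtype.val he'.2
    show e' ∈ _
    clear he he'
    revert hd h2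
    induction e' with
    | _ u v =>
      intro hd h2
      rw [Sym2.mk_isDiag_iff] at hd
      simp only [Sym2.map_mk, Sym2.eq, Sym2.rel_iff', Prod.mk.injEq, Prod.swap_prod_mk] at h2
      rw [Finset.mem_union]
      rcases h2 with ⟨h3, h4⟩ | ⟨h3, h4⟩
      · left
        refine Finset.mem_image.2 ⟨(u, v), ?_, rfl⟩
        rw [Finset.mem_offDiag]
        refine ⟨?_, ?_, hd⟩
        · simp [h3]
        · simp [h4]
      · right
        refine Finset.mem_image.2 ⟨u, ?_, ?_⟩
        · rw [Equiv.Perm.mem_support, h3]
          exact fun h => hd h.symm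
        · rw [h3]
  have h2 := Finset.card_le_card h1
  rw [Finset.card_map] at h2
  refine h2.trans ((Finset.card_union_le _ _).trans ?_)
  apply Nat.add_le_add
  · have := Sym2.card_image_offDiag ((σ.support)ᶜ)
    rw [Finset.card_compl, Fintype.card_fin] at this
    exact le_of_eq this
  · exact Finset.card_image_le

end Pool.Agent.Q287.SR
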