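import Pool.Agent.Q287.SR.Cyl

/-! The MAP bound: the success probability of any estimator is at most the expected number of
isomorphism classes of `m`-vertex induced subgraphs divided by `n choose m`. -/

open Finset BigOperators
open scoped Classical

namespace Pool.Agent.Q287.SR

/-- Relabelling action of permutations on graphs. -/
noncomputable instance permAction (m : ℕ) :
    MulAction (Equiv.Perm (Fin m)) (SimpleGraph (Fin m)) where
  smul σ K := K.comap (fun i => σ.symm i)
  one_smul K := by
    ext u v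
    show K.Adj _ _ ↔ _
    rfl
  mul_smul σ τ K := by
    ext u v
    show K.Adj _ _ ↔ K.Adj _ _
    rfl

theorem smul_adj {m : ℕ} (σ : Equiv.Perm (Fin m)) (K : SimpleGraph (Fin m)) (u v : Fin m) :
    (σ • K).Adj u v ↔ K.Adj (σ.symm u) (σ.symm v) := Iff.rfl

/-- The set of isomorphism classes of graphs on `[m]`. -/
abbrev IsoC (m : ℕ) := Quotient (MulAction.orbitRel (Equiv.Perm (Fin m)) (SimpleGraph (Fin m)))

/-- Isomorphism class of a graph. -/
noncomputable def toC {m : ℕ} (K : SimpleGraph (Fin m)) : IsoC m :=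
  Quotient.mk (MulAction.orbitRel (Equiv.Perm (Fin m)) (SimpleGraph (Fin m))) K

theorem toC_eq {m : ℕ} {K L : SimpleGraph (Fin m)} :
    toC K = toC L ↔ ∃ σ : Equiv.Perm (Fin m), σ • L = K := by
  unfold toC
  rw [Quotient.eq]
  exact Iff.rfl

theorem toC_smul {m : ℕ} (σ : Equiv.Perm (Fin m)) (K : SimpleGraph (Fin m)) :
    toC (σ • K) = toC K := by
  rw [toC_eq]
  exact ⟨σ, rfl⟩

theorem relabel_trans {n m : ℕ} (G : SimpleGraph (Fin n)) (S : Finset (Fin n))
    (π : {x // x ∈ S} ≃ Fin m) (σ : Equiv.Perm (Fin m)) :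
    relabel G S (π.trans σ) = σ • relabel G S π := by
  ext u v
  rfl

/-- The isomorphism class of the induced subgraph `G[S]`. -/
noncomputable def cl {n : ℕ} (m : ℕ) (G : SimpleGraph (Fin n)) (S : Finset (Fin n)) : IsoC m :=
  if h : S.card = m then toC (relabel G S (S.equivFinOfCardEq h)) else toC ⊥

theorem cl_eq {n m : ℕ} (G : SimpleGraph (Fin n)) (S : Finset (Fin n))
    (π : {x // x ∈ S} ≃ Fin m) : cl m G S = toC (relabel G S π) := by
  have h : S.card = m := by
    have := Fintype.card_congr π
    simpa using this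
  unfold cl
  rw [dif_pos h]
  have h2 : π = (S.equivFinOfCardEq h).trans ((S.equivFinOfCardEq h).symm.trans π) := by
    ext x
    simp
  conv_rhs => rw [h2]
  rw [relabel_trans, toC_smul]

/-- The number of classes of induced `m`-vertex subgraphs. -/
noncomputable def numC {n : ℕ} (m : ℕ) (G : SimpleGraph (Fin n)) : ℕ :=
  ((powersetCard m (univ : Finset (Fin n))).image (cl m G)).card

theorem sum_prob_le {n m : ℕ} (A : Estimator n m) (G : SimpleGraph (Fin n)) :
    ∑ S ∈ powersetCard m (univ : Finset (Fin n)),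
      (∑ π : {x // x ∈ S} ≃ Fin m, A.prob G (relabel G S π) S) ≤ (m.factorial : ℝ) * numC m G := by
  set P := powersetCard m (univ : Finset (Fin n)) with hP
  rw [← Finset.sum_fiberwise_of_maps_to (s := P) (t := P.image (cl m G)) (g := cl m G)
    (fun S hS => Finset.mem_image_of_mem _ hS)]
  unfold numC
  rw [← hP]
  have key : ∀ c ∈ P.image (cl m G), ∑ S ∈ P.filter (fun S => cl m G S = c),
      (∑ π : {x // x ∈ S} ≃ Fin m, A.prob G (relabel G S π) S) ≤ (m.factorial : ℝ) := by
    intro c _
    obtain ⟨K, hK⟩ : ∃ K : SimpleGraph (Fin m), toC K = c := Quotient.exists_rep c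
    have h1 : ∀ S ∈ P.filter (fun S => cl m G S = c),
        (∑ π : {x // x ∈ S} ≃ Fin m, A.prob G (relabel G S π) S)
          = ∑ σ : Equiv.Perm (Fin m), A.prob G (σ • K) S := by
      intro S hS
      rw [Finset.mem_filter] at hS
      have hcard : S.card = m := by
        have := hS.1
        rw [hP, Finset.mem_powersetCard] at this
        exact this.2
      have h2 := hS.2
      rw [cl_eq G S (S.equivFinOfCardEq hcard), ← hK, toC_eq] at h2
      obtain ⟨σ, hσ⟩ := h2
      -- relabel by π0 then σ⁻¹ gives K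
      set π1 : {x // x ∈ S} ≃ Fin m := (S.equivFinOfCardEq hcard).trans σ.symm with hπ1
      have h3 : relabel G S π1 = K := by
        rw [hπ1, relabel_trans, ← hσ]
        show σ.symm • σ • K = K
        rw [← mul_smul]
        have : (σ.symm * σ : Equiv.Perm (Fin m)) = 1 := by
          ext x; simp
        rw [this, one_smul]
      let e : Equiv.Perm (Fin m) ≃ ({x // x ∈ S} ≃ Fin m) :=
        { toFun := fun τ => π1.trans τ
          invFun := fun π => π1.symm.trans π
          left_inv := by intro τ; ext x; simp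
          right_inv := by intro π; ext x; simp }
      rw [← Equiv.sum_comp e]
      refine Finset.sum_congr rfl (fun τ _ => ?_)
      show A.prob G (relabel G S (π1.trans τ)) S = _
      rw [relabel_trans, h3]
    rw [Finset.sum_congr rfl h1, Finset.sum_comm]
    calc ∑ σ : Equiv.Perm (Fin m), ∑ S ∈ P.filter (fun S => cl m G S = c), A.prob G (σ • K) S
        ≤ ∑ σ : Equiv.Perm (Fin m), (1:ℝ) := by
          refine Finset.sum_le_sum (fun σ _ => ?_)
          rw [← A.sum_one G (σ • K)]
          exact Finset.sum_le_sum_of_subset_of_nonneg (Finset.filter_subset _ _)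
            (fun S _ _ => A.nonneg _ _ _)
      _ = (m.factorial : ℝ) := by
          simp [Fintype.card_perm]
  calc _ ≤ ∑ c ∈ P.image (cl m G), (m.factorial : ℝ) := Finset.sum_le_sum key
    _ = _ := by rw [Finset.sum_const, nsmul_eq_mul]; ring

theorem success_le {n m : ℕ} {p : ℝ} (h0 : 0 ≤ p) (h1 : p ≤ 1) (A : Estimator n m) :
    success n m p A ≤ Ex n p (fun G => (numC m G : ℝ)) / (n.choose m : ℝ) := by
  unfold success Ex
  rw [Finset.sum_div]
  refine Finset.sum_le_sum (fun G _ => ?_)
  rw [mul_div_assoc]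
  apply mul_le_mul_of_nonneg_left _ (erWeight_nonneg h0 h1 G)
  apply div_le_div_of_nonneg_right _ (Nat.cast_nonneg _)
  rw [← Finset.sum_div, div_le_iff₀ (by positivity), mul_comm]
  exact sum_prob_le A G

/-- `S` has a twin: another `m`-set inducing an isomorphic graph. -/
def Twin {n : ℕ} (m : ℕ) (G : SimpleGraph (Fin n)) (S : Finset (Fin n)) : Prop :=
  ∃ S' ∈ powersetCard m (univ : Finset (Fin n)), S' ≠ S ∧ cl m G S' = cl m G S

theorem numC_le_twin {n m : ℕ} (G : SimpleGraph (Fin n)) :
    (numC m G : ℝ) ≤ ∑ S ∈ powersetCard m (univ : Finset (Fin n)),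
      (1 - (1/2) * (if Twin m G S then (1:ℝ) else 0)) := by
  unfold numC
  set P := powersetCard m (univ : Finset (Fin n)) with hP
  rw [← Finset.sum_fiberwise_of_maps_to (s := P) (t := P.image (cl m G)) (g := cl m G)
    (fun S hS => Finset.mem_image_of_mem _ hS)]
  rw [Finset.card_eq_sum_ones]
  push_cast
  refine Finset.sum_le_sum (fun c hc => ?_)
  obtain ⟨S, hS, hSc⟩ := Finset.mem_image.1 hc
  have hnn : ∀ T, 0 ≤ (1 - (1/2) * (if Twin m G T then (1:ℝ) else 0)) := by
    intro T
    split_ifs <;> norm_num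
  have hSf : S ∈ P.filter (fun S => cl m G S = c) := Finset.mem_filter.2 ⟨hS, hSc⟩
  by_cases ht : Twin m G S
  · obtain ⟨S', hS', hne, hcl⟩ := ht
    have hSf' : S' ∈ P.filter (fun S => cl m G S = c) :=
      Finset.mem_filter.2 ⟨hS', by rw [hcl, hSc]⟩
    have hsub : ({S, S'} : Finset (Finset (Fin n))) ⊆ P.filter (fun S => cl m G S = c) := by
      intro T hT
      rw [Finset.mem_insert, Finset.mem_singleton] at hT
      rcases hT with rfl | rfl
      · exact hSf
      · exact hSf'
    calc (1:ℝ) ≤ ∑ T ∈ ({S, S'} : Finset (Finset (Fin n))),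
          (1 - (1/2) * (if Twin m G T then (1:ℝ) else 0)) := by
          rw [Finset.sum_pair (Ne.symm hne)]
          have a1 : (1/2:ℝ) ≤ (1 - (1/2) * (if Twin m G S then (1:ℝ) else 0)) := by
            split_ifs <;> norm_num
          have a2 : (1/2:ℝ) ≤ (1 - (1/2) * (if Twin m G S' then (1:ℝ) else 0)) := by
            split_ifs <;> norm_num
          linarith
      _ ≤ _ := Finset.sum_le_sum_of_subset_of_nonneg hsub (fun T _ _ => hnn T)
  · calc (1:ℝ) = (1 - (1/2) * (if Twin m G S then (1:ℝ) else 0)) := by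
          rw [if_neg ht]; norm_num
      _ ≤ _ := Finset.single_le_sum (f := fun T => (1 - (1/2) * (if Twin m G T then (1:ℝ) else 0)))
          (fun T _ => hnn T) hSf

/-- Splitting the classes with respect to an invariant family `T` of graphs on `[m]`. -/
theorem numC_le_typ {n m : ℕ} (G : SimpleGraph (Fin n)) (T : SimpleGraph (Fin m) → Prop) :
    (numC m G : ℝ) ≤ (((univ : Finset (SimpleGraph (Fin m))).filter T).image toC).card +
      ∑ S ∈ powersetCard m (univ : Finset (Fin n)),
        (if ∃ π : {x // x ∈ S} ≃ Fin m, ¬ T (relabel G S π) then (1:ℝ) else 0) := by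
  unfold numC
  set P := powersetCard m (univ : Finset (Fin n)) with hP
  set Bd := P.filter (fun S => ∃ π : {x // x ∈ S} ≃ Fin m, ¬ T (relabel G S π)) with hBd
  have hsub : P.image (cl m G) ⊆
      (((univ : Finset (SimpleGraph (Fin m))).filter T).image toC) ∪ Bd.image (cl m G) := by
    intro c hc
    obtain ⟨S, hS, hSc⟩ := Finset.mem_image.1 hc
    rw [Finset.mem_union]
    by_cases hb : ∃ π : {x // x ∈ S} ≃ Fin m, ¬ T (relabel G S π)
    · right
      exact Finset.mem_image.2 ⟨S, Finset.mem_filter.2 ⟨hS, hb⟩, hSc⟩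
    · left
      push Not at hb
      have hcard : S.card = m := by
        rw [hP, Finset.mem_powersetCard] at hS
        exact hS.2
      rw [cl_eq G S (S.equivFinOfCardEq hcard)] at hSc
      exact Finset.mem_image.2 ⟨_, Finset.mem_filter.2 ⟨Finset.mem_univ _, hb _⟩, hSc⟩
  have h1 : (P.image (cl m G)).card ≤
      (((univ : Finset (SimpleGraph (Fin m))).filter T).image toC).card + Bd.card :=
    (Finset.card_le_card hsub).trans ((Finset.card_union_le _ _).trans
      (Nat.add_le_add_left Finset.card_image_le _))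
  have h2 : (Bd.card : ℝ) = ∑ S ∈ P,
      (if ∃ π : {x // x ∈ S} ≃ Fin m, ¬ T (relabel G S π) then (1:ℝ) else 0) := by
    rw [hBd, Finset.card_filter]
    push_cast
    rfl
  rw [← h2]
  exact_mod_cast h1

end Pool.Agent.Q287.SR
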